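import Pool.Agent.P.MP_ab3ecb_nt.Inv.E.Iface

/-! Step LW of the twist project. -/

namespace Pool.Agent.P.MP_ab3ecb_nt.Inv

open WithZero Polynomial Module NumberField
open Pool.Agent.P.MP_6f117a_ag (Place FF Model Reg)
open scoped IntermediateField Classical Polynomial.Bivariate

lemma lw_wt {k E : Type} [Field k] [Field E] [Algebra k E] {n : ℕ} (x y : E) (G : k[X][Y])
    (h1 : G.natDegree ≤ n) (h2 : ∀ i, (G.coeff i).natDegree ≤ n) :
    aevalAeval x y G ∈ Wt k n x y (n * n + n) := by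
  rw [G.as_sum_range_C_mul_X_pow, map_sum]
  refine Submodule.sum_mem _ fun i hi => ?_
  rw [map_mul, map_pow, aevalAeval_C, aevalAeval_Y, aeval_eq_sum_range, Finset.sum_mul]
  refine Submodule.sum_mem _ fun j hj => ?_
  rw [smul_mul_assoc]
  refine Submodule.smul_mem _ _ (Submodule.subset_span ⟨j, i, ?_, rfl⟩)
  have h3 := Finset.mem_range.1 hi
  have h4 := Finset.mem_range.1 hj
  have h5 := h2 i
  have h6 : n * i ≤ n * n := Nat.mul_le_mul_left n (by omega)
  omega

lemma lw_sep {k : Type} [Field k] [IsAlgClosed k] (Ψ : k[X][Y]) (a : k) :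
    (Ψ.map (evalRingHom a)).Separable ↔
      ∀ b, Ψ.evalEval a b = 0 → (derivative Ψ).evalEval a b ≠ 0 := by
  rw [separable_def, isCoprime_iff_aeval_ne_zero_of_isAlgClosed k k, derivative_map]
  refine forall_congr' fun b => ?_
  rw [coe_aeval_eq_eval, map_evalRingHom_eval, map_evalRingHom_eval]
  exact imp_iff_not_or.symm

lemma lw_bad (hLWB : S_LWB) {k E : Type} [Field k] [IsAlgClosed k] [Field E] [Algebra k E] [FF k E]
    {Ψ : k[X][Y]} {n : ℕ} {x y : E} (h : Pc Ψ n x y) (hd : (Ψ.natDegree : k) ≠ 0) (S : Finset k)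
    (hS : ∀ a ∈ S, ¬ (Ψ.map (evalRingHom a)).Separable) : S.card ≤ (n * n + n) * n := by
  obtain ⟨⟨D, -, d2, d3, d4⟩, h2, h3, -⟩ := hLWB k E Ψ n x y h
  have h0 : aevalAeval x y (derivative Ψ) ≠ 0 := fun e => by
    have h4 : derivative Ψ ≠ 0 := fun e' => by
      have h5 := coeff_derivative Ψ (Ψ.natDegree - 1)
      rw [e', coeff_zero, Nat.sub_add_cancel h.pos, h.monic.coeff_natDegree, one_mul,
        ← Nat.cast_succ, Nat.succ_eq_add_one, Nat.sub_add_cancel h.pos, ← map_natCast C] at h5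
      exact hd (C_eq_zero.1 h5.symm)
    exact (natDegree_derivative_lt h.pos.ne').not_ge (natDegree_le_of_dvd ((h.ker _).1 e) h4)
  have h1 := (mem_LS' h0).1 (d3 _ (lw_wt x y (derivative Ψ)
    ((natDegree_derivative_lt h.pos.ne').le.trans h.le) fun i => by
      rw [coeff_derivative, ← Nat.cast_succ, ← map_natCast C]
      exact (natDegree_mul_C_le _ _).trans (h.coef _)))
  have h4 : ∀ a ∈ S, ∃ P : Place k E, P.v (x - algebraMap k E a) < 1 ∧
      1 ≤ (dv k (aevalAeval x y (derivative Ψ)) + (n * n + n) • D) P := fun a ha => by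
    have h5 := hS a ha
    rw [lw_sep] at h5
    push Not at h5
    obtain ⟨b, b1, b2⟩ := h5
    obtain ⟨P, hP⟩ := h2 a b b1
    obtain ⟨h6, h7⟩ := h3 a (derivative Ψ) P b hP
    have h8 := (lt_one_iff h0).1 ((ev_eq_zero_iff h6).1 (h7.trans b2))
    refine ⟨P, hP.1, ?_⟩
    rw [Finsupp.add_apply, dv_apply, Finsupp.smul_apply, d4 P a b hP, smul_zero, add_zero]
    exact h8
  choose P p1 p2 using h4
  set T := dv k (aevalAeval x y (derivative Ψ)) + (n * n + n) • D with hT
  have h5 : S.attach.card ≤ T.support.card := Finset.card_le_card_of_injOn (fun a => P a.1 a.2)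
    (fun a _ => Finsupp.mem_support_iff.2 (one_pos.trans_le (p2 a.1 a.2)).ne') fun a _ b _ e =>
      Subtype.ext (PL.const_eq (P b.1 b.2).v (P b.1 b.2).triv
        ((show P a.1 a.2 = P b.1 b.2 from e) ▸ p1 a.1 a.2) (p1 b.1 b.2))
  have h6 : (T.support.card : ℤ) ≤ deg T := by
    rw [deg_eq, Finset.card_eq_sum_ones, Nat.cast_sum]
    refine Finset.sum_le_sum fun Q hQ => ?_
    have h7 : 0 ≤ T Q := h1 Q
    have h8 := Finsupp.mem_support_iff.1 hQ
    omega
  have h7 : deg T = ((n * n + n) * Ψ.natDegree : ℕ) := by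
    rw [hT, map_add, deg_dv, map_nsmul, d2, zero_add, nsmul_eq_mul, Nat.cast_mul (n * n + n)]
  rw [Finset.card_attach] at h5
  exact h5.trans ((Nat.cast_le.1 (h6.trans h7.le)).trans (Nat.mul_le_mul_left _ h.le))

theorem p_LW (hLWA : S_LWA) (hLWB : S_LWB) (hLWE : S_LWE) :
    S_LW := by
  intro n
  obtain ⟨p0, hp0⟩ := hLWE n
  refine ⟨p0 + n + 2 * n * (1 + (n * n + n) * n), fun κ _ _ Ψ hp hm hn hc hi => ?_⟩
  let _ := Fintype.ofFinite κ
  obtain ⟨e, hpp, hq⟩ := FiniteField.card κ (ringChar κ)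
  set p := ringChar κ
  have := Fact.mk hpp
  set k := AlgebraicClosure κ
  set ι := algebraMap κ k
  set Φ := Ψ.map (mapRingHom ι) with hΦ
  have hdeg : Φ.natDegree = Ψ.natDegree := hm.natDegree_map _
  obtain ⟨E, _, _, _, x, y, h⟩ := hLWA k Φ n (hm.map _) hi (hdeg ▸ hn) fun i => by
    rw [hΦ, coeff_map]
    exact natDegree_map_le.trans (hc i)
  by_contra hne
  have hd : (Φ.natDegree : k) ≠ 0 := fun e => by
    have := Nat.le_of_dvd h.pos ((CharP.cast_eq_zero_iff k p _).1 e)
    have := h.le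
    omega
  have hfix : ∀ a : κ, ι a ^ p ^ (e : ℕ) = ι a := fun a => by
    rw [← map_pow, ← hq, FiniteField.pow_card]
  let A : Finset k := (Finset.univ.map ⟨ι, ι.injective⟩).erase 0
  let G : Finset k := A.filter fun a => (Φ.map (evalRingHom a)).Separable
  have hA : A.card + 1 = p ^ (e : ℕ) := by
    rw [Finset.card_erase_add_one (by simp), Finset.card_map,
      Finset.card_univ, hq]
  have hG := Finset.card_filter_add_card_filter_not (s := A)
    fun a => (Φ.map (evalRingHom a)).Separable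
  have hB := lw_bad hLWB h hd (A.filter fun a => ¬ (Φ.map (evalRingHom a)).Separable)
    fun a ha => (Finset.mem_filter.1 ha).2
  have hZ := hp0 k E p e Φ x y (by omega) e.ne_zero h
    ((G.sigma fun a => (Φ.map (evalRingHom a)).roots.toFinset).map
      (Equiv.sigmaEquivProd k k).toEmbedding) fun z hz => by
    obtain ⟨⟨a, b⟩, h1, rfl⟩ := Finset.mem_map.1 hz
    obtain ⟨h2, h3⟩ := Finset.mem_sigma.1 h1
    obtain ⟨h4, h5⟩ := Finset.mem_filter.1 h2
    obtain ⟨h6, h7⟩ := Finset.mem_erase.1 h4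
    obtain ⟨a, -, rfl⟩ := Finset.mem_map.1 h7
    have h8 : Φ.evalEval (ι a) b = 0 := by
      rw [← map_evalRingHom_eval]
      exact isRoot_of_mem_roots (Multiset.mem_toFinset.1 h3)
    refine ⟨hfix a, h5, h8, ?_, fun h9 => ?_⟩
    · have h9 := map_mapRingHom_evalEval (iterateFrobenius k p e) Φ (ι a) b
      rw [h8, map_zero, hΦ, Polynomial.map_map, mapRingHom_comp,
        show (iterateFrobenius k p e).comp ι = ι from RingHom.ext hfix] at h9
      rw [← h9]
      exact congrArg (fun t => Φ.evalEval t _) (hfix a).symm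
    · obtain ⟨b, rfl⟩ := Splits.mem_range_of_isRoot (f := (X ^ Fintype.card κ - X : κ[X]))
        (by simpa using (FiniteField.isSplittingField_sub κ κ).splits')
        (FiniteField.X_pow_card_sub_X_ne_zero κ Fintype.one_lt_card) (i := ι) (x := b)
        (by simpa [hq, sub_eq_zero] using h9)
      have h10 := (lw_sep Φ (ι a)).1 h5 _ h8
      rw [hΦ, derivative_map, map_mapRingHom_evalEval] at h10
      rw [hΦ, map_mapRingHom_evalEval] at h8
      exact hne ⟨a, b, fun e => h6 (by simp [e]), (map_eq_zero ι).1 h8, (map_ne_zero ι).1 h10⟩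
  rw [Finset.card_map, Finset.card_sigma, Finset.sum_congr rfl (g := fun _ => Φ.natDegree)
    fun a ha => by
      rw [Multiset.toFinset_card_of_nodup (nodup_roots (Finset.mem_filter.1 ha).2),
        IsAlgClosed.card_roots_eq_natDegree, h.monic.natDegree_map],
    Finset.sum_const, smul_eq_mul] at hZ
  have h1 : p ≤ p ^ (e : ℕ) := Nat.le_self_pow e.ne_zero p
  have h2 : Φ.natDegree * (1 + (n * n + n) * n) ≤ n * (1 + (n * n + n) * n) :=
    Nat.mul_le_mul_right _ h.le
  have h3 : Φ.natDegree * p ^ (e : ℕ) ≤ Φ.natDegree * (G.card + (1 + (n * n + n) * n)) :=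
    Nat.mul_le_mul_left _ (by simp only [G]; omega)
  nlinarith

end Pool.Agent.P.MP_ab3ecb_nt.Inv
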