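import Pool.Agent.P.MP_ab3ecb_nt.Inv.E.Iface

/-! Step LWB of the twist project. -/

namespace Pool.Agent.P.MP_ab3ecb_nt.Inv

open WithZero Polynomial Module NumberField
open Pool.Agent.P.MP_6f117a_ag (Place FF Model Reg)
open scoped IntermediateField Classical Polynomial.Bivariate

section

variable {k E : Type} [Field k] [Field E] [Algebra k E] {Ψ : k[X][Y]} {n : ℕ} {x y : E}

lemma lwb_ev2 (x y : E) (G : k[X][Y]) :
    aevalAeval x y G = G.eval₂ (aeval x : k[X] →ₐ[k] E).toRingHom y := by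
  induction G using Polynomial.induction_on' with
  | add p q hp hq => rw [map_add, eval₂_add, hp, hq]
  | monomial i c =>
    rw [eval₂_monomial, ← C_mul_X_pow_eq_monomial, map_mul, map_pow, aevalAeval_C, aevalAeval_Y]
    rfl

lemma lwb_rank [FF k E] (h : Pc Ψ n x y) : finrank k⟮x⟯ E = Ψ.natDegree := by
  let _ : Algebra k[X] E := (aeval x : k[X] →ₐ[k] E).toRingHom.toAlgebra
  let _ : Algebra k[X] k⟮x⟯ :=
    (aeval (IntermediateField.AdjoinSimple.gen k x) : k[X] →ₐ[k] k⟮x⟯).toRingHom.toAlgebra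
  have hc : ∀ p : k[X], algebraMap k⟮x⟯ E (algebraMap k[X] k⟮x⟯ p) = aeval x p := fun p => by
    change algebraMap k⟮x⟯ E (aeval (IntermediateField.AdjoinSimple.gen k x) p) = _
    rw [← aeval_algebraMap_apply, IntermediateField.AdjoinSimple.algebraMap_gen]
  have : IsScalarTower k[X] k⟮x⟯ E := .of_algebraMap_eq fun p => (hc p).symm
  have hi : Function.Injective (algebraMap k[X] E) := transcendental_iff_injective.1 h.tr
  have : FaithfulSMul k[X] k⟮x⟯ := (faithfulSMul_iff_algebraMap_injective _ _).2 fun p q e =>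
    hi (by rw [IsScalarTower.algebraMap_apply k[X] k⟮x⟯ E, e,
      ← IsScalarTower.algebraMap_apply k[X] k⟮x⟯ E])
  have : IsFractionRing k[X] k⟮x⟯ := IsFractionRing.of_field _ _ fun z => by
    obtain ⟨r, s, e⟩ := (IntermediateField.mem_adjoin_simple_iff k z.1).1 z.2
    refine ⟨r, s, (algebraMap k⟮x⟯ E).injective ?_⟩
    rw [map_div₀, hc, hc]
    exact e
  have := FF.fin (L := k) x h.tr
  have ha : ∀ G : k[X][Y], aeval y G = aevalAeval x y G := fun G => by
    rw [lwb_ev2, aeval_def]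
    rfl
  have h0 : aeval y Ψ = 0 := by rw [ha, h.ker]
  have hint : IsIntegral k[X] y := ⟨Ψ, h.monic, by rw [← aeval_def, h0]⟩
  have ht : (k⟮x⟯)⟮y⟯ = ⊤ := by
    rw [← IntermediateField.restrictScalars_eq_top_iff (K := k),
      IntermediateField.adjoin_simple_adjoin_simple, h.top]
  rw [← (Field.primitive_element_iff_minpoly_natDegree_eq _ y).1 ht,
    minpoly.isIntegrallyClosed_eq_field_fractions' k⟮x⟯ hint, (minpoly.monic hint).natDegree_map]
  refine le_antisymm (natDegree_le_natDegree (minpoly.min _ y h.monic h0)) ?_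
  exact natDegree_le_of_dvd ((h.ker _).1 (by rw [← ha, minpoly.aeval])) (minpoly.ne_zero hint)

lemma lwb_coef (P : Place k E) {m : ℤ} (hm : 0 ≤ m) (hx : P.v x ≤ exp m) {c : k[X]}
    (hc : c.natDegree ≤ n) : P.v (aeval x c) ≤ exp (n * m) := by
  rw [aeval_eq_sum_range]
  refine P.v.map_sum_le fun i hi => ?_
  have hi' : (i : ℤ) ≤ n := by
    have := Finset.mem_range.1 hi
    omega
  rw [Algebra.smul_def, map_mul, map_pow]
  calc P.v (algebraMap k E (c.coeff i)) * P.v x ^ i ≤ 1 * exp m ^ i :=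
        mul_le_mul' (P.triv _) (pow_le_pow_left' hx i)
    _ = exp (i * m) := by rw [one_mul, ← exp_nsmul, nsmul_eq_mul]
    _ ≤ exp (n * m) := exp_le_exp.2 (mul_le_mul_of_nonneg_right hi' hm)

lemma lwb_y (h : Pc Ψ n x y) (P : Place k E) {m : ℤ} (hm : 0 ≤ m) (hx : P.v x ≤ exp m) :
    P.v y ≤ exp (n * m) := by
  by_contra hy
  rw [not_le] at hy
  have h1 : 1 ≤ P.v y := (exp_zero.symm.trans_le (exp_le_exp.2 (by positivity))).trans hy.le
  have h0 := (h.ker Ψ).2 dvd_rfl
  rw [h.monic.as_sum, map_add, map_pow, aevalAeval_Y, map_sum, add_eq_zero_iff_eq_neg] at h0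
  have h2 := congrArg P.v h0
  rw [Valuation.map_neg, map_pow] at h2
  refine (P.v.map_sum_lt (g := P.v y ^ Ψ.natDegree) (pow_ne_zero _ (zero_lt_one.trans_le h1).ne')
    fun i hi => ?_).ne' h2
  rw [map_mul, map_pow, aevalAeval_C, aevalAeval_Y, map_mul, map_pow]
  calc P.v (aeval x (Ψ.coeff i)) * P.v y ^ i < P.v y * P.v y ^ i :=
        mul_lt_mul_of_pos_right ((lwb_coef P hm hx (h.coef i)).trans_lt hy)
          (pow_pos (zero_lt_one.trans_le h1) i)
    _ = P.v y ^ (i + 1) := by rw [pow_succ']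
    _ ≤ _ := pow_le_pow_right₀ h1 (Finset.mem_range.1 hi)

variable [IsAlgClosed k] [FF k E]

lemma lwb_one (h : Pc Ψ n x y) :
    ∃ D : Dv k E, 0 ≤ D ∧ deg D = Ψ.natDegree ∧ (∀ s : ℕ, Wt k n x y s ≤ LS (s • D)) ∧
      ∀ P a b, Ctr x y P a b → D P = 0 := by
  obtain ⟨Z, hZ, hs⟩ := PL.exists_poles h.tr
  let D : Dv k E := Finsupp.onFinset Z (fun P => if P ∈ Z then log (P.v x) else 0)
    fun P hP => by_contra fun h' => hP (if_neg h')
  have hD : ∀ P, D P = if P ∈ Z then log (P.v x) else 0 := fun P => rfl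
  have hx0 : x ≠ 0 := fun e => h.tr (e ▸ isAlgebraic_zero)
  have h0 : ∀ P, 0 ≤ D P := fun P => by
    rw [hD]
    split_ifs with hP
    · exact ((lt_log_iff_exp_lt (v_ne P hx0)).2 (by simpa using (hZ P).1 hP)).le
    · rfl
  have hx : ∀ P : Place k E, P.v x ≤ exp (D P) := fun P => by
    rw [hD]
    split_ifs with hP
    · rw [exp_log (v_ne P hx0)]
    · rw [exp_zero]
      exact not_lt.1 fun h' => hP ((hZ P).2 h')
  refine ⟨D, h0, ?_, fun s => Submodule.span_le.2 ?_, fun P a b hc => ?_⟩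
  · rw [deg_eq_of_subset (S := Z) Finsupp.support_onFinset_subset, ← lwb_rank h, ← hs]
    exact Finset.sum_congr rfl fun P hP => by rw [hD, if_pos hP]
  · rintro _ ⟨a, l, hal, rfl⟩
    refine mem_LS.2 fun P => ?_
    have hal' : (a : ℤ) + n * l ≤ s := by exact_mod_cast hal
    rw [map_mul, map_pow, map_pow]
    calc P.v x ^ a * P.v y ^ l ≤ exp (D P) ^ a * exp (n * D P) ^ l :=
          mul_le_mul' (pow_le_pow_left' (hx P) a) (pow_le_pow_left' (lwb_y h P (h0 P) (hx P)) l)
      _ = exp ((a + n * l) * D P) := by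
          rw [← exp_nsmul, ← exp_nsmul, ← exp_add, nsmul_eq_mul, nsmul_eq_mul]
          congr 1
          ring
      _ ≤ exp ((s • D) P) := by
          rw [Finsupp.smul_apply, nsmul_eq_mul]
          exact exp_le_exp.2 (mul_le_mul_of_nonneg_right hal' (h0 P))
  · rw [hD, if_neg fun hP => ((hZ P).1 hP).not_ge (le_one_of_sub hc.1)]

lemma lwb_two (h : Pc Ψ n x y) (a b : k) (h0 : Ψ.evalEval a b = 0) :
    ∃ P : Place k E, Ctr x y P a b := by
  let f : k[X][Y] →ₐ[k] E := aevalAeval x y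
  have H : RingHom.ker f.rangeRestrict.toRingHom ≤
      RingHom.ker (aevalAeval a b : k[X][Y] →ₐ[k] k).toRingHom := fun G hG => by
    obtain ⟨q, rfl⟩ := (h.ker G).1 (congrArg Subtype.val hG)
    change aevalAeval a b (Ψ * q) = 0
    rw [coe_aevalAeval_eq_evalEval, evalEval_mul, h0, zero_mul]
  obtain ⟨P, hP⟩ := PL.exists_center f.range
    (AlgHom.liftOfSurjective _ f.rangeRestrict_surjective _ H) (t := x)
    ⟨C X, aevalAeval_X x y⟩ h.tr
  have h1 := hP (f.rangeRestrict (C X))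
  have h2 := hP (f.rangeRestrict Y)
  rw [AlgHom.liftOfSurjective_apply] at h1 h2
  rw [aevalAeval_X] at h1
  rw [aevalAeval_Y] at h2
  refine ⟨P, ?_, ?_⟩
  · rw [← aevalAeval_X (R := k) x y]
    exact h1
  · rw [← aevalAeval_Y (R := k) x y]
    exact h2

lemma lwb_three (a : k) (G : k[X][Y]) (P : Place k E) (b : k) (hc : Ctr x y P a b) :
    P.v (aevalAeval x y G) ≤ 1 ∧ ev P (aevalAeval x y G) = G.evalEval a b := by
  have hx := le_one_of_sub hc.1
  have hy := le_one_of_sub hc.2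
  have h1 : ∀ c : k[X], P.v (aeval x c) ≤ 1 ∧ ev P (aeval x c) = c.eval a := fun c => by
    induction c using Polynomial.induction_on with
    | C c => exact ⟨by rw [aeval_C]; exact P.triv c, by rw [aeval_C, eval_C]; exact ev_eq (by simp)⟩
    | add p q hp hq =>
      rw [map_add, eval_add, ev_add hp.1 hq.1, hp.2, hq.2]
      exact ⟨P.v.map_add_le hp.1 hq.1, rfl⟩
    | monomial i c ih =>
      rw [pow_succ, ← mul_assoc, map_mul, eval_mul, aeval_X, eval_X, ev_mul ih.1 hx, ih.2,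
        ev_eq hc.1, map_mul]
      exact ⟨mul_le_one' ih.1 hx, rfl⟩
  induction G using Polynomial.induction_on with
  | C c => rw [aevalAeval_C, evalEval_C]; exact h1 c
  | add p q hp hq =>
    rw [map_add, evalEval_add, ev_add hp.1 hq.1, hp.2, hq.2]
    exact ⟨P.v.map_add_le hp.1 hq.1, rfl⟩
  | monomial i c ih =>
    rw [pow_succ, ← mul_assoc, map_mul, evalEval_mul, aevalAeval_Y, evalEval_X, ev_mul ih.1 hy,
      ih.2, ev_eq hc.2, map_mul]
    exact ⟨mul_le_one' ih.1 hy, rfl⟩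

lemma lwb_four (h : Pc Ψ n x y) (a : k) (hs : (Ψ.map (evalRingHom a)).Separable) (P : Place k E)
    (b : k) (hc : Ctr x y P a b) : ord P (x - algebraMap k E a) = 1 := by
  have ht : Transcendental k (x - algebraMap k E a) := fun h' => h.tr (by
    simpa using h'.add (isAlgebraic_algebraMap a))
  have h0 : x - algebraMap k E a ≠ 0 := fun e => ht (e ▸ isAlgebraic_zero)
  have hf : {Q : Place k E | Q.v (x - algebraMap k E a) < 1}.Finite :=
    (PL.finite_supp h0).subset fun Q hQ => ne_of_lt hQ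
  have hZ : ∀ Q, Q ∈ hf.toFinset ↔ Q.v (x - algebraMap k E a) < 1 := fun Q => hf.mem_toFinset
  have e : k⟮x - algebraMap k E a⟯ = k⟮x⟯ := le_antisymm
    (IntermediateField.adjoin_simple_le_iff.2 (sub_mem (IntermediateField.mem_adjoin_simple_self k x)
      (IntermediateField.algebraMap_mem _ a)))
    (IntermediateField.adjoin_simple_le_iff.2 (by
      simpa using add_mem (IntermediateField.mem_adjoin_simple_self k (x - algebraMap k E a))
        (IntermediateField.algebraMap_mem _ a)))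
  have hsum := PL.sum_zeros ht _ hZ
  rw [e, lwb_rank h] at hsum
  have hm : (Ψ.map (evalRingHom a)).Monic := h.monic.map _
  have hr : ∀ c ∈ (Ψ.map (evalRingHom a)).roots.toFinset, ∃ Q : Place k E, Ctr x y Q a c :=
    fun c hc' => lwb_two h a c (by
      rw [← map_evalRingHom_eval]
      exact (mem_roots hm.ne_zero).1 (Multiset.mem_toFinset.1 hc'))
  have : Nonempty (Place k E) := ⟨P⟩
  choose! g hg using hr
  have hcard : Ψ.natDegree ≤ hf.toFinset.card := by
    rw [← h.monic.natDegree_map (evalRingHom a), ← IsAlgClosed.card_roots_eq_natDegree,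
      ← Multiset.toFinset_card_of_nodup (nodup_roots hs)]
    refine Finset.card_le_card_of_injOn g (fun c hc' => (hZ _).2 (hg c hc').1) fun c h1 d h2 e => ?_
    rw [← ev_eq (hg c h1).2, e, ev_eq (hg d h2).2]
  have hge : ∀ Q ∈ hf.toFinset, 0 ≤ ord Q (x - algebraMap k E a) - 1 := fun Q hQ => by
    have := (lt_one_iff h0).1 ((hZ Q).1 hQ)
    omega
  have hz : ∑ Q ∈ hf.toFinset, (ord Q (x - algebraMap k E a) - 1) = 0 := by
    refine le_antisymm ?_ (Finset.sum_nonneg hge)
    rw [Finset.sum_sub_distrib, Finset.sum_const, nsmul_eq_mul, mul_one, sub_nonpos]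
    exact hsum.le.trans (by exact_mod_cast hcard)
  exact sub_eq_zero.1 ((Finset.sum_eq_zero_iff_of_nonneg hge).1 hz P ((hZ P).2 hc.1))

end

theorem p_LWB :
    S_LWB := fun _ _ _ _ _ _ _ _ _ _ _ h =>
  ⟨lwb_one h, lwb_two h, lwb_three, lwb_four h⟩

end Pool.Agent.P.MP_ab3ecb_nt.Inv
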