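import Pool.Agent.P.MP_ab3ecb_nt.Inv.E.Iface

/-! Step LWC of the twist project. -/

namespace Pool.Agent.P.MP_ab3ecb_nt.Inv

open WithZero Polynomial Module NumberField
open Pool.Agent.P.MP_6f117a_ag (Place FF Model Reg)
open scoped IntermediateField Classical Polynomial.Bivariate

lemma lwc_ext {k V E : Type} [Field k] [AddCommGroup V] [Module k V] [AddCommGroup E] [Module k E]
    (g f : V →ₗ[k] E) (h : ∀ v, g v = 0 → f v = 0) : ∃ δ : E →ₗ[k] E, ∀ v, δ (g v) = f v := by
  obtain ⟨s, hs⟩ := g.rangeRestrict.exists_rightInverse_of_surjective g.range_rangeRestrict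
  obtain ⟨δ, hδ⟩ := (f.comp s).exists_extend
  refine ⟨δ, fun v => ?_⟩
  have h1 := LinearMap.congr_fun hδ (g.rangeRestrict v)
  have h2 := congrArg Subtype.val (LinearMap.congr_fun hs (g.rangeRestrict v))
  have h3 := h (s (g.rangeRestrict v) - v) (by rw [map_sub]; exact sub_eq_zero.2 h2)
  rw [map_sub, sub_eq_zero] at h3
  exact h1.trans h3

variable {k E : Type} [Field k] [Field E] [Algebra k E] {n : ℕ} {x y : E}

lemma lwc_mono {s t : ℕ} (h : s ≤ t) : Wt k n x y s ≤ Wt k n x y t :=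
  Submodule.span_mono fun _ ⟨a, l, h1, h2⟩ => ⟨a, l, h1.trans h, h2⟩

lemma lwc_gen (a l : ℕ) : x ^ a * y ^ l ∈ Wt k n x y (a + n * l) :=
  Submodule.subset_span ⟨a, l, le_rfl, rfl⟩

lemma lwc_mul {s t : ℕ} {u w : E} (hu : u ∈ Wt k n x y s) (hw : w ∈ Wt k n x y t) :
    u * w ∈ Wt k n x y (s + t) := by
  have := Submodule.mul_mem_mul hu hw
  rw [Wt, Wt, Submodule.span_mul_span] at this
  refine Submodule.span_mono ?_ this
  rintro _ ⟨_, ⟨a, l, h1, rfl⟩, _, ⟨a', l', h2, rfl⟩, rfl⟩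
  exact ⟨a + a', l + l', by rw [mul_add]; omega, by ring⟩

/-- The Leibniz rule. -/
def lwc_L (T : k[X][Y] →ₗ[k] k[X][Y]) : Prop := ∀ G H, T (G * H) = G * T H + H * T G

lemma lwc_mon {T : k[X][Y] →ₗ[k] k[X][Y]} (hT : lwc_L T) {c : ℕ}
    (h1 : aevalAeval x y (T (C X)) ∈ Wt k n x y c) (h2 : aevalAeval x y (T Y) ∈ Wt k n x y c)
    (a l : ℕ) : aevalAeval x y (T (C X ^ a * Y ^ l)) ∈ Wt k n x y (a + n * l + c) := by
  have h0 : T 1 = 0 := by simpa using hT 1 1
  have key : ∀ (G H : k[X][Y]) (s t : ℕ), aevalAeval x y G ∈ Wt k n x y s ∧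
      aevalAeval x y (T G) ∈ Wt k n x y (s + c) → aevalAeval x y H ∈ Wt k n x y t ∧
      aevalAeval x y (T H) ∈ Wt k n x y (t + c) → aevalAeval x y (G * H) ∈ Wt k n x y (s + t) ∧
      aevalAeval x y (T (G * H)) ∈ Wt k n x y (s + t + c) := fun G H s t hG hH => by
    rw [hT, map_add, map_mul, map_mul, map_mul]
    exact ⟨lwc_mul hG.1 hH.1, add_mem (lwc_mono (by omega) (lwc_mul hG.1 hH.2))
      (lwc_mono (by omega) (lwc_mul hH.1 hG.2))⟩
  have kp : ∀ (G : k[X][Y]) (s : ℕ), aevalAeval x y G ∈ Wt k n x y s →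
      aevalAeval x y (T G) ∈ Wt k n x y c → ∀ m : ℕ, aevalAeval x y (G ^ m) ∈ Wt k n x y (s * m) ∧
      aevalAeval x y (T (G ^ m)) ∈ Wt k n x y (s * m + c) := fun G s g1 g2 m => by
    induction m with
    | zero => simpa [h0] using lwc_gen (k := k) (n := n) (x := x) (y := y) 0 0
    | succ m ih => exact pow_succ G m ▸ key _ _ _ _ ih ⟨g1, lwc_mono (by omega) g2⟩
  have := (key _ _ _ _ (kp (C X) 1 (by simpa using lwc_gen (k := k) (n := n) (x := x) (y := y) 1 0)
    h1 a) (kp Y n (by simpa using lwc_gen (k := k) (n := n) (x := x) (y := y) 0 1) h2 l)).2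
  rwa [one_mul] at this

lemma lwc_deg {Ψ : k[X][Y]} (h1 : Ψ.natDegree ≤ n) (h2 : ∀ i, (Ψ.coeff i).natDegree ≤ n)
    (f : k[X][Y] →ₗ[k] E) (W : Submodule k E) (h : ∀ a ≤ n, ∀ l ≤ n, f (C X ^ a * Y ^ l) ∈ W) :
    f Ψ ∈ W := by
  rw [Ψ.as_sum_range_C_mul_X_pow' (Nat.lt_succ_of_le h1), map_sum]
  refine W.sum_mem fun l hl => ?_
  rw [(Ψ.coeff l).as_sum_range_C_mul_X_pow' (Nat.lt_succ_of_le (h2 l)), map_sum, Finset.sum_mul,
    map_sum]
  refine W.sum_mem fun a ha => ?_
  rw [C_mul, C_pow, mul_assoc, show C (C ((Ψ.coeff l).coeff a)) =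
    algebraMap k k[X][Y] ((Ψ.coeff l).coeff a) from rfl, ← Algebra.smul_def, map_smul]
  exact W.smul_mem _ (h a (Nat.le_of_lt_succ (Finset.mem_range.1 ha)) l
    (Nat.le_of_lt_succ (Finset.mem_range.1 hl)))

/-- The derivative in the second variable. -/
noncomputable def lwc_Y : k[X][Y] →ₗ[k] k[X][Y] := (derivative (R := k[X])).restrictScalars k

/-- The derivative in the first variable. -/
noncomputable def lwc_X : k[X][Y] →ₗ[k] k[X][Y] :=
  Bivariate.swap.toLinearMap ∘ₗ lwc_Y ∘ₗ Bivariate.swap.toLinearMap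

lemma lwc_Y_eq (G : k[X][Y]) : lwc_Y G = derivative G := rfl

lemma lwc_X_eq (G : k[X][Y]) : lwc_X G = Bivariate.swap (derivative (Bivariate.swap G)) := rfl

lemma lwc_XX : lwc_X (C X : k[X][Y]) = 1 := by
  rw [lwc_X_eq, Bivariate.swap_X, derivative_X, map_one]

lemma lwc_XY : lwc_X (Y : k[X][Y]) = 0 := by
  rw [lwc_X_eq, Bivariate.swap_Y, derivative_C, map_zero]

lemma lwc_XC (a : k) : lwc_X (C (C a) : k[X][Y]) = 0 := by
  rw [lwc_X_eq, Bivariate.swap_C_C, derivative_C, map_zero]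

lemma lwc_LY : lwc_L (k := k) lwc_Y := fun G H => by
  simp only [lwc_Y_eq, derivative_mul]; ring

lemma lwc_LX : lwc_L (k := k) lwc_X := fun G H => by
  simp only [lwc_X_eq, map_mul, derivative_mul, map_add, Bivariate.swap_swap_apply]; ring

lemma lwc_range {u : E} : u ∈ Algebra.adjoin k {x, y} ↔ ∃ G : k[X][Y], aevalAeval x y G = u := by
  refine ⟨fun h => (Algebra.adjoin_le (S := (aevalAeval (R := k) x y).range) ?_) h, ?_⟩
  · rintro _ (rfl | rfl)
    exacts [⟨C X, aevalAeval_X _ _⟩, ⟨Y, aevalAeval_Y _ _⟩]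
  rintro ⟨G, rfl⟩
  have hx : x ∈ Algebra.adjoin k {x, y} := Algebra.subset_adjoin (by simp)
  have hy : y ∈ Algebra.adjoin k {x, y} := Algebra.subset_adjoin (by simp)
  refine lwc_deg (n := max G.natDegree (G.support.sup fun i => (G.coeff i).natDegree))
    (le_max_left _ _) (fun i => ?_) (aevalAeval (R := k) x y).toLinearMap
    (Algebra.adjoin k {x, y}).toSubmodule fun a _ l _ => ?_
  · by_cases hi : i ∈ G.support
    · exact le_max_of_le_right (Finset.le_sup (f := fun i => (G.coeff i).natDegree) hi)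
    · simp [notMem_support_iff.1 hi]
  · simpa using mul_mem (pow_mem hx a) (pow_mem hy l)

lemma lwc_taylor (G : k[X][Y]) (a b : k) : ∃ (g : k[X]) (Q : k[X][Y]),
    G = C (C (G.evalEval a b)) + C (X - C a) * C g + (Y - C (C b)) * Q := by
  obtain ⟨Q, hQ⟩ := X_sub_C_dvd_sub_C_eval (p := G) (a := C b)
  obtain ⟨g, hg⟩ := X_sub_C_dvd_sub_C_eval (p := G.eval (C b)) (a := a)
  refine ⟨g, Q, ?_⟩
  rw [← map_mul, ← hg, ← hQ, evalEval, map_sub]
  ring

variable {P : Place k E} {a b : k}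

lemma lwc_le (h : Ctr x y P a b) (G : k[X][Y]) : P.v (aevalAeval x y G) ≤ 1 := by
  refine Algebra.adjoin_induction (p := fun u _ => P.v u ≤ 1) ?_ P.triv
    (fun u w _ _ h1 h2 => P.v.map_add_le h1 h2)
    (fun u w _ _ h1 h2 => by rw [map_mul]; exact mul_le_one' h1 h2) (lwc_range.2 ⟨G, rfl⟩)
  rintro _ (rfl | rfl)
  exacts [le_one_of_sub h.1, le_one_of_sub h.2]

lemma lwc_ev (G : k[X][Y]) (a b : k) : ∃ G1 G2 : k[X][Y], aevalAeval x y G =
    algebraMap k E (G.evalEval a b) + (x - algebraMap k E a) * aevalAeval x y G1 +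
      (y - algebraMap k E b) * aevalAeval x y G2 ∧
      G2.evalEval a b = (derivative G).evalEval a b := by
  obtain ⟨g, Q, h⟩ := lwc_taylor G a b
  refine ⟨C g, Q, ?_, ?_⟩
  · conv_lhs => rw [h]
    simp
  · conv_rhs => rw [h]
    simp [evalEval]

lemma lwc_val (h : Ctr x y P a b) (G : k[X][Y]) :
    P.v (aevalAeval x y G) < 1 ↔ G.evalEval a b = 0 := by
  obtain ⟨G1, G2, h1, -⟩ := lwc_ev (x := x) (y := y) G a b
  have h2 : P.v ((x - algebraMap k E a) * aevalAeval x y G1 +
      (y - algebraMap k E b) * aevalAeval x y G2) < 1 := by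
    refine P.v.map_add_lt ?_ ?_ <;> rw [map_mul]
    exacts [mul_lt_one_of_lt_of_le h.1 (lwc_le h _), mul_lt_one_of_lt_of_le h.2 (lwc_le h _)]
  rw [h1, add_assoc]
  refine ⟨fun h3 => by_contra fun h4 => ?_, fun h3 => by rwa [h3, map_zero, zero_add]⟩
  have := P.v.map_sub_lt h3 h2
  rw [add_sub_cancel_right, P.v_const h4] at this
  exact lt_irrefl _ this

theorem p_LWC :
    S_LWC := by
  intro k E _ _ _ _ _ Ψ n x y h
  let D : k[X][Y] →ₗ[k] k[X][Y] := derivative Ψ • lwc_X - lwc_X Ψ • lwc_Y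
  have hD : ∀ G, D G = derivative Ψ * lwc_X G - lwc_X Ψ * derivative G := fun _ => rfl
  have hL : lwc_L D := fun G H => by
    rw [hD, hD, hD, lwc_LX, derivative_mul]; ring
  have dx : D (C X) = derivative Ψ := by simp [hD, lwc_XX]
  have dy : D Y = -lwc_X Ψ := by simp [hD, lwc_XY]
  obtain ⟨δ, hδ⟩ := lwc_ext (aevalAeval (R := k) x y).toLinearMap
    ((aevalAeval (R := k) x y).toLinearMap ∘ₗ D) fun G hG => by
      obtain ⟨H, rfl⟩ := (h.ker G).1 hG
      refine (h.ker _).2 ⟨D H, ?_⟩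
      rw [hL, hD Ψ]
      ring
  replace hδ : ∀ G : k[X][Y], δ (aevalAeval x y G) = aevalAeval x y (D G) := hδ
  have one : (1 : E) ∈ Wt k n x y 0 := by
    simpa using lwc_gen (k := k) (n := n) (x := x) (y := y) 0 0
  have key : ∀ T : k[X][Y] →ₗ[k] k[X][Y], lwc_L T → aevalAeval x y (T (C X)) ∈ Wt k n x y 0 →
      aevalAeval x y (T Y) ∈ Wt k n x y 0 → aevalAeval x y (T Ψ) ∈ Wt k n x y (n * n + n) :=
    fun T t1 t2 t3 => lwc_deg h.le h.coef ((aevalAeval (R := k) x y).toLinearMap ∘ₗ T) _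
      fun a ha l hl => lwc_mono (by nlinarith) (lwc_mon t1 t2 t3 a l)
  have w1 := key _ lwc_LY (by simp [lwc_Y_eq]) (by simpa [lwc_Y_eq] using one)
  have w2 := key _ lwc_LX (by simpa [lwc_XX] using one) (by simp [lwc_XY])
  refine ⟨δ, fun u hu w hw => ?_, fun s u hu => ?_, by rw [← dx, ← hδ, aevalAeval_X],
    fun P a b hc h0 h1 m => ?_⟩
  · obtain ⟨G, rfl⟩ := lwc_range.1 hu
    obtain ⟨H, rfl⟩ := lwc_range.1 hw
    rw [← map_mul, hδ, hδ, hδ, hL, map_add, map_mul, map_mul]
  · refine (Submodule.span_le (p := (Wt k n x y (s + n * n + n)).comap δ)).2 ?_ hu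
    rintro _ ⟨a, l, h1, rfl⟩
    have := lwc_mon hL (c := n * n + n) (dx ▸ w1) (by rw [dy, map_neg]; exact neg_mem w2) a l
    rw [← hδ, map_mul, map_pow, map_pow, aevalAeval_X, aevalAeval_Y] at this
    exact lwc_mono (by omega) this
  have un : ∀ G : k[X][Y], G.evalEval a b ≠ 0 → P.v (aevalAeval x y G) = 1 := fun G hG =>
    (lwc_le hc G).antisymm (not_lt.1 (mt (lwc_val hc G).1 hG))
  have vπ : P.v (x - algebraMap k E a) = exp (-1) :=
    (ord_eq_iff (ne_zero_of_ord (by rw [h1]; exact one_ne_zero))).1 h1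
  have z0 := (h.ker Ψ).2 dvd_rfl
  obtain ⟨A, B, b1, b2⟩ := lwc_ev (x := x) (y := y) Ψ a b
  rw [z0, (lwc_val hc Ψ).1 (by simp [z0]), map_zero, zero_add] at b1
  have vB := un B (b2 ▸ h0)
  have dπ : D (C (X - C a)) = derivative Ψ := by simp [hD, lwc_XX, lwc_XC]
  have S : ∀ (r : ℕ) (G : k[X][Y]), P.v (aevalAeval x y G) ≤ exp (-(r : ℤ)) →
      P.v ((x - algebraMap k E a) * aevalAeval x y (D G) -
        r * aevalAeval x y (derivative Ψ) * aevalAeval x y G) < exp (-(r : ℤ)) := fun r => by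
    induction r with
    | zero =>
      intro G _
      simpa using mul_lt_one_of_lt_of_le hc.1 (lwc_le hc (D G))
    | succ r ih =>
      intro G hG
      obtain ⟨G1, G2, g1, -⟩ := lwc_ev (x := x) (y := y) G a b
      rw [(lwc_val hc G).1 (hG.trans_lt (by rw [← exp_zero, exp_lt_exp]; omega)), map_zero,
        zero_add] at g1
      obtain ⟨W, hW⟩ : ∃ W : k[X][Y], aevalAeval x y B * aevalAeval x y G =
          (x - algebraMap k E a) * aevalAeval x y W :=
        ⟨B * G1 - A * G2, by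
          rw [map_sub, map_mul, map_mul]
          linear_combination aevalAeval x y B * g1 - aevalAeval x y G2 * b1⟩
      have g3 : P.v (aevalAeval x y W) ≤ exp (-(r : ℤ)) := by
        rw [← one_mul (P.v _), ← vB, ← map_mul, hW, map_mul, vπ, Nat.cast_succ, neg_add, add_comm,
          exp_add] at hG
        exact le_of_mul_le_mul_left hG exp_pos
      have g4 := hδ (B * G)
      rw [map_mul, hW, show (x - algebraMap k E a) * aevalAeval x y W =
        aevalAeval x y (C (X - C a) * W) by simp, hδ, hL, hL, dπ] at g4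
      simp only [map_add, map_mul, aevalAeval_C, map_sub, aeval_X, aeval_C] at g4
      have g5 : aevalAeval x y B * ((x - algebraMap k E a) * aevalAeval x y (D G) -
          (r + 1 : ℕ) * aevalAeval x y (derivative Ψ) * aevalAeval x y G) =
          (x - algebraMap k E a) * ((x - algebraMap k E a) * aevalAeval x y (D W) -
            r * aevalAeval x y (derivative Ψ) * aevalAeval x y W) -
          (x - algebraMap k E a) * (aevalAeval x y G * aevalAeval x y (D B)) := by
        push_cast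
        linear_combination -(x - algebraMap k E a) * g4 -
          (r + 1) * aevalAeval x y (derivative Ψ) * hW
      rw [← one_mul (P.v _), ← vB, ← map_mul, g5]
      refine P.v.map_sub_lt ?_ ?_ <;> rw [map_mul, vπ]
      · rw [Nat.cast_succ, neg_add, add_comm, exp_add]
        exact mul_lt_mul_of_pos_left (ih W g3) exp_pos
      · rw [map_mul]
        refine (mul_le_mul_right ((mul_le_of_le_one_right' (lwc_le hc _)).trans hG) _).trans_lt ?_
        rw [← exp_add, exp_lt_exp]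
        omega
  intro hm u hu
  obtain ⟨G, rfl⟩ := lwc_range.1 hu
  clear hu
  induction m generalizing G with
  | zero => exact fun _ => by simpa using lwc_le hc G
  | succ m ih =>
    intro hG
    have i1 := ih (fun t a b => hm t a (by omega)) G fun t ht => hG t (by omega)
    have i2 := ih (fun t a b => hm t a (by omega)) (D G) fun t ht => by
      have := hG (t + 1) (by omega)
      rwa [pow_succ, Module.End.mul_apply, hδ] at this
    have i3 : P.v (aevalAeval x y G) < exp (-(m : ℤ)) := by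
      rcases Nat.eq_zero_or_pos m with rfl | m0
      · simpa using hG 0 one_pos
      have i4 : P.v ((x - algebraMap k E a) * aevalAeval x y (D G)) < exp (-(m : ℤ)) := by
        rw [map_mul, vπ]
        refine (mul_le_mul_right i2 _).trans_lt ?_
        rw [← exp_add, exp_lt_exp]
        omega
      have i5 := P.v.map_sub_lt i4 (S m G i1)
      rwa [sub_sub_cancel, map_mul, map_mul, un _ h0, ← map_natCast (algebraMap k E),
        P.v_const (hm m m0 (by omega)), one_mul, one_mul] at i5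
    rcases eq_or_ne (aevalAeval x y G) 0 with z | z
    · simp [z]
    rw [lt_exp_iff z] at i3
    rw [le_exp_iff z]
    omega

end Pool.Agent.P.MP_ab3ecb_nt.Inv
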