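import Pool.Agent.P.MP_ab3ecb_nt.Inv.E.Iface
import Pool.Agent.P.MP_ab3ecb_nt.Inv.J.Iface

/-! Step LWD of the twist project. -/

namespace Pool.Agent.P.MP_ab3ecb_nt.Inv

open WithZero Polynomial Module NumberField
open Pool.Agent.P.MP_6f117a_ag (Place FF Model Reg)
open scoped IntermediateField Classical Polynomial.Bivariate

section

variable {k E : Type} [Field k] [IsAlgClosed k] [Field E] [Algebra k E] [FF k E]

lemma lwd_ge {D : Dv k E} {a : E} (ha : a ∈ LS D) (h0 : a ≠ 0) (P : Place k E) :
    exp (D P - deg D) ≤ P.v a := by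
  have h := (mem_LS' h0).1 ha
  have h1 : (dv k a + D) P ≤ deg (dv k a + D) := by
    rw [deg_eq_of_subset (S := insert P (dv k a + D).support) (Finset.subset_insert _ _)]
    exact Finset.single_le_sum (f := fun Q => (dv k a + D) Q) (fun Q _ => h Q)
      (Finset.mem_insert_self _ _)
  rw [map_add, deg_dv, Finsupp.add_apply, dv_apply] at h1
  rw [v_eq P h0, exp_le_exp]
  omega

lemma lwd_main (p e : ℕ) [Fact p.Prime] [CharP E p] (D : Dv k E) (P : Place k E)
    (hD : deg D < (p ^ e : ℕ)) {ι : Type} (a : ι → E) (ha : ∀ i, a i ∈ LS D) (n : ℕ) :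
    ∀ (s : Finset ι) (b : ι → E), s.card = n →
      (∀ g : ι → k, ∑ i ∈ s, g i • b i = 0 → ∀ i ∈ s, g i = 0) →
      ∑ i ∈ s, a i * b i ^ p ^ e = 0 → ∀ i ∈ s, a i = 0 := by
  induction n with
  | zero =>
    intro s b hs _ _ i hi
    simp [Finset.card_eq_zero.1 hs] at hi
  | succ n ih =>
    intro s b hs hb h
    obtain ⟨j, hj, hmax⟩ := s.exists_max_image (fun i => P.v (b i))
      (Finset.card_pos.1 (by omega))
    have hbj : b j ≠ 0 := fun h0 => by
      have := hb (Pi.single j 1) (by
        rw [Finset.sum_eq_single j (fun i _ hi => by simp [hi]) (fun h' => (h' hj).elim), h0,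
          smul_zero]) j hj
      simp at this
    have hvj := v_ne P hbj
    let c : ι → k := fun i => ev P (b i / b j)
    let b' : ι → E := fun i => b i - c i • b j
    have hb' : ∀ i ∈ s, P.v (b' i) ≤ exp (-1) * P.v (b j) := fun i hi => by
      have h1 := ev_spec (P := P) (z := b i / b j) (by
        rw [map_div₀]; exact div_le_one_of_le₀ (hmax i hi) zero_le)
      have h2 : b' i = (b i / b j - algebraMap k E (c i)) * b j := by
        rw [sub_mul, div_mul_cancel₀ _ hbj, ← Algebra.smul_def]
      rw [h2, map_mul]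
      refine mul_le_mul_left ?_ _
      rcases eq_or_ne (b i / b j - algebraMap k E (c i)) 0 with h3 | h3
      · simp [h3]
      · rw [le_exp_iff h3]
        have := (lt_one_iff h3).1 h1
        omega
    let A : E := a j + ∑ i ∈ s.erase j, (c i ^ p ^ e) • a i
    have hA : A ∈ LS D := add_mem (ha j) (Submodule.sum_mem _ fun i _ => Submodule.smul_mem _ _ (ha i))
    have hsum : A * b j ^ p ^ e + ∑ i ∈ s.erase j, a i * b' i ^ p ^ e = 0 := by
      rw [← h, ← Finset.add_sum_erase s _ hj, add_mul, Finset.sum_mul, add_assoc,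
        ← Finset.sum_add_distrib]
      congr 1
      refine Finset.sum_congr rfl fun i _ => ?_
      rw [sub_pow_char_pow, Algebra.smul_def, Algebra.smul_def, mul_pow, map_pow]
      ring
    have hA0 : A = 0 := by
      by_contra h0
      have h1 := congrArg P.v (eq_neg_of_add_eq_zero_left hsum)
      rw [Valuation.map_neg] at h1
      refine (P.v.map_sum_lt (g := P.v (A * b j ^ p ^ e))
        (v_ne P (mul_ne_zero h0 (pow_ne_zero _ hbj))) fun i hi => ?_).ne' h1
      rw [map_mul, map_mul, map_pow, map_pow]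
      calc P.v (a i) * P.v (b' i) ^ p ^ e ≤ exp (D P) * (exp (-1) * P.v (b j)) ^ p ^ e :=
            mul_le_mul' (mem_LS.1 (ha i) P)
              (pow_le_pow_left' (hb' i (Finset.mem_of_mem_erase hi)) _)
        _ = exp (D P - (p ^ e : ℕ)) * P.v (b j) ^ p ^ e := by
            rw [mul_pow, ← mul_assoc, ← exp_nsmul, ← exp_add, nsmul_eq_mul, mul_neg_one,
              sub_eq_add_neg]
        _ < _ := mul_lt_mul_of_pos_right
            ((exp_lt_exp.2 (by omega)).trans_le (lwd_ge hA h0 P))
            (pow_pos (zero_lt_iff.2 hvj) _)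
    rw [hA0, zero_mul, zero_add] at hsum
    have h1 := ih (s.erase j) b' (by rw [Finset.card_erase_of_mem hj, hs]; rfl) (fun g hg i hi => by
      have := hb (Function.update g j (-∑ i ∈ s.erase j, g i * c i)) (by
        rw [← Finset.add_sum_erase s _ hj, Function.update_self, ← hg, neg_smul, Finset.sum_smul,
          ← Finset.sum_neg_distrib, ← Finset.sum_add_distrib]
        refine Finset.sum_congr rfl fun i hi => ?_
        rw [Function.update_of_ne (Finset.ne_of_mem_erase hi), smul_sub, mul_smul, neg_add_eq_sub])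
        i (Finset.mem_of_mem_erase hi)
      rwa [Function.update_of_ne (Finset.ne_of_mem_erase hi)] at this) hsum
    intro i hi
    rcases eq_or_ne i j with rfl | hij
    · rw [← hA0]
      exact (add_eq_left.2 (Finset.sum_eq_zero fun l hl => by rw [h1 l hl, smul_zero])).symm
    · exact h1 i (Finset.mem_erase.2 ⟨hij, hi⟩)

end

theorem p_LWD (hRR : S_RR) :
    S_LWD := by
  intro k E _ _ _ _ _ p e _ _ D ⟨t, ht⟩ hD ι _ a b ha hb h i
  obtain ⟨P, -⟩ := PL.exists_pole ht
  have : CharP E p := charP_of_injective_algebraMap (algebraMap k E).injective p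
  exact lwd_main p e D P hD a ha _ Finset.univ b rfl
    (fun g hg i _ => Fintype.linearIndependent_iff.1 hb g hg i) h i (Finset.mem_univ i)

end Pool.Agent.P.MP_ab3ecb_nt.Inv
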