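import Pool.Agent.P.MP_ab3ecb_nt.Inv.E.Iface
import Pool.Agent.P.MP_ab3ecb_nt.Inv.J.Iface

/-! Step LWE of the twist project. -/

namespace Pool.Agent.P.MP_ab3ecb_nt.Inv

open WithZero Polynomial Module NumberField
open Pool.Agent.P.MP_6f117a_ag (Place FF Model Reg)
open scoped IntermediateField Classical Polynomial.Bivariate

section aux

variable {k E : Type} [Field k] [Field E] [Algebra k E] {n : ℕ} {x y : E}

lemma lwe_mon {a l s : ℕ} (h : a + n * l ≤ s) : x ^ a * y ^ l ∈ Wt k n x y s :=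
  Submodule.subset_span ⟨a, l, h, rfl⟩

lemma lwe_mono {s s' : ℕ} (h : s ≤ s') {u : E} (hu : u ∈ Wt k n x y s) :
    u ∈ Wt k n x y s' := by
  refine Submodule.span_mono ?_ hu
  rintro _ ⟨a, l, h1, h2⟩
  exact ⟨a, l, h1.trans h, h2⟩

lemma lwe_mul {s s' : ℕ} {u w : E} (hu : u ∈ Wt k n x y s) (hw : w ∈ Wt k n x y s') :
    u * w ∈ Wt k n x y (s + s') := by
  have h := Submodule.mul_mem_mul hu hw
  rw [Wt, Wt, Submodule.span_mul_span] at h
  refine Submodule.span_mono ?_ h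
  rintro _ ⟨_, ⟨a, l, h1, rfl⟩, _, ⟨a', l', h2, rfl⟩, rfl⟩
  exact ⟨a + a', l + l', by rw [mul_add]; omega, by ring⟩

lemma lwe_adj {s : ℕ} {u : E} (hu : u ∈ Wt k n x y s) : u ∈ Algebra.adjoin k {x, y} := by
  have h : Wt k n x y s ≤ (Algebra.adjoin k {x, y}).toSubmodule := by
    refine Submodule.span_le.2 ?_
    rintro _ ⟨a, l, -, rfl⟩
    exact Subalgebra.mul_mem _ (pow_mem (Algebra.subset_adjoin (by simp)) a)
      (pow_mem (Algebra.subset_adjoin (by simp)) l)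
  exact h hu

lemma lwe_pol {f : k[X]} (h : f.natDegree ≤ n) : aeval x f ∈ Wt k n x y n := by
  rw [aeval_eq_sum_range]
  refine Submodule.sum_mem _ fun i hi => Submodule.smul_mem _ _ ?_
  have := lwe_mon (k := k) (n := n) (x := x) (y := y) (a := i) (l := 0) (s := n)
    (by have := Finset.mem_range.1 hi; omega)
  simpa using this

lemma lwe_li {Ψ : k[X][Y]} (h : Pc Ψ n x y) {d : ℕ} (hd : Ψ.natDegree = d) (N : ℕ) :
    LinearIndependent k fun z : Fin d × Fin N => x ^ (z.2 : ℕ) * y ^ (z.1 : ℕ) := by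
  rw [Fintype.linearIndependent_iff]
  intro c hc z
  set G : k[X][Y] := ∑ i : Fin d, monomial (i : ℕ) (∑ j : Fin N, monomial (j : ℕ) (c (i, j)))
    with hG
  have h1 : aevalAeval x y G = 0 := by
    rw [← hc, hG, map_sum, Fintype.sum_prod_type]
    refine Finset.sum_congr rfl fun i _ => ?_
    rw [← C_mul_X_pow_eq_monomial, map_mul, map_pow, aevalAeval_C, aevalAeval_Y, map_sum,
      Finset.sum_mul]
    refine Finset.sum_congr rfl fun j _ => ?_
    rw [aeval_monomial, Algebra.smul_def, mul_assoc]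
  have h2 : G.degree < Ψ.degree := by
    rw [degree_eq_natDegree h.monic.ne_zero, hd]
    refine (degree_sum_le _ _).trans_lt ((Finset.sup_lt_iff (WithBot.bot_lt_coe _)).2 fun i _ => ?_)
    exact (degree_monomial_le _ _).trans_lt (by exact_mod_cast i.2)
  have h3 : G = 0 := eq_zero_of_dvd_of_degree_lt ((h.ker G).1 h1) h2
  have h4 := congrArg (fun G : k[X][Y] => (G.coeff z.1).coeff z.2) h3
  simpa [hG, finsetSum_coeff, coeff_monomial, Fin.val_inj] using h4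

lemma lwe_ker {V : Type} [AddCommGroup V] [Module k V] [FiniteDimensional k V] {ι : Type}
    [Fintype ι] (W : Submodule k E) [FiniteDimensional k W] (f : ι → V →ₗ[k] E)
    (h : ∀ i v, f i v ∈ W) (hlt : Fintype.card ι * finrank k W < finrank k V) :
    ∃ v, v ≠ 0 ∧ ∀ i, f i v = 0 := by
  have h1 := LinearMap.ker_ne_bot_of_finrank_lt
    (f := LinearMap.pi fun i => (f i).codRestrict W (h i))
    (by rwa [Module.finrank_pi_fintype, Finset.sum_const, smul_eq_mul, Finset.card_univ])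
  obtain ⟨v, hv, h0⟩ := (Submodule.ne_bot_iff _).1 h1
  exact ⟨v, h0, fun i => congrArg Subtype.val (congrFun (LinearMap.mem_ker.1 hv) i)⟩

variable {δ : E →ₗ[k] E}

lemma lwe_dq (hδ : ∀ u ∈ Algebra.adjoin k {x, y}, ∀ w ∈ Algebra.adjoin k {x, y},
    δ (u * w) = u * δ w + w * δ u) {w : E} (hw : w ∈ Algebra.adjoin k {x, y}) (q : ℕ) :
    δ (w ^ (q + 1)) = ((q + 1 : ℕ) : E) * w ^ q * δ w := by
  induction q with
  | zero => simp
  | succ q ih =>
    rw [pow_succ, hδ _ (pow_mem hw _) _ hw, ih]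
    push_cast
    ring

lemma lwe_dt (hW : ∀ s, ∀ u ∈ Wt k n x y s, δ u ∈ Wt k n x y (s + n * n + n)) {s : ℕ} {u : E}
    (hu : u ∈ Wt k n x y s) (t : ℕ) : (δ ^ t) u ∈ Wt k n x y (s + t * (n * n + n)) := by
  induction t with
  | zero => simpa using hu
  | succ t ih =>
    rw [pow_succ', Module.End.mul_apply]
    exact lwe_mono (le_of_eq (by ring)) (hW _ _ ih)

lemma lwe_dm (hδ : ∀ u ∈ Algebra.adjoin k {x, y}, ∀ w ∈ Algebra.adjoin k {x, y},
    δ (u * w) = u * δ w + w * δ u)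
    (hW : ∀ s, ∀ u ∈ Wt k n x y s, δ u ∈ Wt k n x y (s + n * n + n)) {s : ℕ} {u w : E}
    (hu : u ∈ Wt k n x y s) (hw : w ∈ Algebra.adjoin k {x, y}) (h0 : δ w = 0) (t : ℕ) :
    (δ ^ t) (u * w) = (δ ^ t) u * w := by
  induction t with
  | zero => simp
  | succ t ih =>
    rw [pow_succ', Module.End.mul_apply, Module.End.mul_apply, ih,
      hδ _ (lwe_adj (lwe_dt hW hu t)) _ hw, h0]
    ring

lemma lwe_root {ψ : k[X]} {d : ℕ} (hm : ψ.Monic) (hd : ψ.natDegree = d + 1) {b b' : k}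
    (hb : ψ.eval b = 0) (hb' : ψ.eval b' = 0) (hne : b' ≠ b) :
    ∑ i : Fin d, (∑ l ∈ Finset.Icc ((i : ℕ) + 1) (d + 1), b ^ (l - (i + 1)) * ψ.coeff l) *
      b' ^ (i : ℕ) + b' ^ d = 0 := by
  have h1 := mul_divByMonic_eq_iff_isRoot.2 hb
  have h2 : (ψ /ₘ (X - C b)).eval b' = 0 := by
    rw [← h1, eval_mul, eval_sub, eval_X, eval_C] at hb'
    exact (mul_eq_zero.1 hb').resolve_left (sub_ne_zero.2 hne)
  have h3 : (ψ /ₘ (X - C b)).natDegree < d + 1 := by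
    rw [natDegree_divByMonic _ (monic_X_sub_C b), hd, natDegree_X_sub_C]
    omega
  rw [eval_eq_sum_range' h3, Finset.sum_range_succ, Finset.sum_range] at h2
  simp only [coeff_divByMonic_X_sub_C, hd] at h2
  rw [Finset.Icc_self, Finset.sum_singleton, Nat.sub_self, pow_zero, one_mul, ← hd,
    hm.coeff_natDegree, one_mul, hd] at h2
  exact h2

lemma lwe_deg {D : Dv k E} (h : 0 ≤ D) (S : Finset (Place k E)) : ∑ P ∈ S, D P ≤ deg D := by
  rw [deg_eq_of_subset (S := S ∪ D.support) Finset.subset_union_right]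
  exact Finset.sum_le_sum_of_subset_of_nonneg Finset.subset_union_left fun P _ _ => h P

lemma lwe_ar1 {d J r κ s F : ℕ} (hJ : J = d * s) (hr : J * κ ≤ r)
    (hF : F ≤ (d + 1) * (r + κ) + 1) :
    (d + 1) * s * d * F < (d + 1) * (J + 1) * ((d + 1) * (r + 1)) := by
  have h1 : J * F < (J + 1) * ((d + 1) * (r + 1)) := by
    have h2 : J * F ≤ J * ((d + 1) * (r + κ) + 1) := Nat.mul_le_mul_left _ hF
    have h3 : (d + 1) * (J * κ) ≤ (d + 1) * r := Nat.mul_le_mul_left _ hr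
    have h4 : 0 ≤ J * d := Nat.zero_le _
    nlinarith
  calc (d + 1) * s * d * F = (d + 1) * (J * F) := by rw [hJ]; ring
    _ < (d + 1) * ((J + 1) * ((d + 1) * (r + 1))) := Nat.mul_lt_mul_of_pos_left h1 d.succ_pos
    _ = _ := by ring

lemma lwe_ar2 {d n s q Z R : ℕ} (hs : s = 2 * (1 + n * n)) (hd : d ≤ n) (hR : (d + 1) * R ≤ q)
    (h : (d + 1) * s * Z ≤ (d + 1) * (R + q * (d * s + n * d))) :
    2 * Z + q ≤ 2 * (d + 1) * q := by
  have h1 : s * Z ≤ R + q * (d * s + n * d) := by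
    rw [mul_assoc] at h
    exact Nat.le_of_mul_le_mul_left h d.succ_pos
  have h2 : R ≤ q := le_trans (Nat.le_mul_of_pos_left R d.succ_pos) hR
  have h3 : q * (n * d) ≤ q * (n * n) := Nat.mul_le_mul_left _ (Nat.mul_le_mul_left _ hd)
  have h4 : s * (2 * Z + q) ≤ s * (2 * (d + 1) * q) := by
    have h5 : s * q = 2 * q + 2 * (q * (n * n)) := by rw [hs]; ring
    nlinarith
  exact Nat.le_of_mul_le_mul_left h4 (by omega)

/-- `z` is regular at `P` with value `c`. -/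
def lwe_V (P : Place k E) (z : E) (c : k) : Prop := P.v z ≤ 1 ∧ ev P z = c

variable [IsAlgClosed k] [FF k E] {P : Place k E}

lemma lwe_add {z z' : E} {c c' : k} (h : lwe_V P z c) (h' : lwe_V P z' c') :
    lwe_V P (z + z') (c + c') :=
  ⟨P.v.map_add_le h.1 h'.1, by rw [ev_add h.1 h'.1, h.2, h'.2]⟩

lemma lwe_sub {z z' : E} {c c' : k} (h : lwe_V P z c) (h' : lwe_V P z' c') :
    lwe_V P (z - z') (c - c') :=
  ⟨P.v.map_sub_le h.1 h'.1, by rw [ev_sub h.1 h'.1, h.2, h'.2]⟩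

lemma lwe_vmul {z z' : E} {c c' : k} (h : lwe_V P z c) (h' : lwe_V P z' c') :
    lwe_V P (z * z') (c * c') :=
  ⟨by rw [map_mul]; exact mul_le_one' h.1 h'.1, by rw [ev_mul h.1 h'.1, h.2, h'.2]⟩

lemma lwe_pow {z : E} {c : k} (h : lwe_V P z c) (m : ℕ) : lwe_V P (z ^ m) (c ^ m) :=
  ⟨by rw [map_pow]; exact pow_le_one' h.1 m, by rw [ev_pow h.1, h.2]⟩

lemma lwe_sum {ι : Type} (s : Finset ι) {z : ι → E} {c : ι → k}
    (h : ∀ i ∈ s, lwe_V P (z i) (c i)) : lwe_V P (∑ i ∈ s, z i) (∑ i ∈ s, c i) := by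
  induction s using Finset.induction_on with
  | empty => exact ⟨by simp, by simp⟩
  | insert a s ha ih =>
    rw [Finset.sum_insert ha, Finset.sum_insert ha]
    exact lwe_add (h a (Finset.mem_insert_self _ _))
      (ih fun i hi => h i (Finset.mem_insert_of_mem hi))

/-- The value of the auxiliary function vanishes at a place over a moved point. -/
lemma lwe_van {d N q : ℕ} {a b : k} (hc : Ctr x y P a b) (ha : a ^ q = a) (g : Fin d → E)
    (g0 : Fin d → k) (hg : ∀ i, lwe_V P (g i) (g0 i))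
    (h0 : ∑ i : Fin d, g0 i * (b ^ q) ^ (i : ℕ) + (b ^ q) ^ d = 0)
    (u : Fin (d + 1) × Fin N → E) (hu : ∀ z, P.v (u z) ≤ 1)
    (hB : ∀ i : Fin d, ∑ j : Fin N, u (i.castSucc, j) * x ^ (j : ℕ) -
      g i * ∑ j : Fin N, u (Fin.last d, j) * x ^ (j : ℕ) = 0) :
    P.v (∑ z, u z * (x ^ (z.2 : ℕ) * y ^ (z.1 : ℕ)) ^ q) < 1 := by
  have hx : lwe_V P x a := ⟨le_one_of_sub hc.1, ev_eq hc.1⟩
  have hy : lwe_V P y b := ⟨le_one_of_sub hc.2, ev_eq hc.2⟩
  have hV : ∀ z, lwe_V P (u z) (ev P (u z)) := fun z => ⟨hu z, rfl⟩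
  have hU : ∀ i, lwe_V P (∑ j : Fin N, u (i, j) * x ^ (j : ℕ))
      (∑ j : Fin N, ev P (u (i, j)) * a ^ (j : ℕ)) := fun i =>
    lwe_sum _ fun j _ => lwe_vmul (hV _) (lwe_pow hx _)
  have h1 : ∀ i : Fin d, ∑ j : Fin N, ev P (u (i.castSucc, j)) * a ^ (j : ℕ) =
      g0 i * ∑ j : Fin N, ev P (u (Fin.last d, j)) * a ^ (j : ℕ) := fun i => by
    have := (lwe_sub (hU i.castSucc) (lwe_vmul (hg i) (hU (Fin.last d)))).2
    rw [hB i, ev_zero] at this
    exact sub_eq_zero.1 this.symm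
  have h2 := lwe_sum (P := P) Finset.univ fun (z : Fin (d + 1) × Fin N) _ =>
    lwe_vmul (hV z) (lwe_pow (lwe_vmul (lwe_pow hx (z.2 : ℕ)) (lwe_pow hy (z.1 : ℕ))) q)
  refine (ev_eq_zero_iff h2.1).1 (h2.2.trans ?_)
  have h3 : ∀ i : Fin (d + 1), ∑ j : Fin N, ev P (u (i, j)) * (a ^ (j : ℕ) * b ^ (i : ℕ)) ^ q =
      (∑ j : Fin N, ev P (u (i, j)) * a ^ (j : ℕ)) * (b ^ q) ^ (i : ℕ) := fun i => by
    rw [Finset.sum_mul]
    refine Finset.sum_congr rfl fun j _ => ?_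
    rw [mul_pow, ← pow_mul a, mul_comm (j : ℕ) q, pow_mul a, ha, ← pow_mul b, mul_comm (i : ℕ) q,
      pow_mul b, mul_assoc]
  rw [Fintype.sum_prod_type]
  simp only [h3]
  rw [Fin.sum_univ_castSucc]
  simp only [h1, Fin.val_castSucc, Fin.val_last]
  have h4 := congrArg (· * ∑ j : Fin N, ev P (u (Fin.last d, j)) * a ^ (j : ℕ)) h0
  simp only [add_mul, Finset.sum_mul _ _ (∑ j : Fin N, ev P (u (Fin.last d, j)) * a ^ (j : ℕ)),
    zero_mul] at h4
  rw [← h4]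
  congr 1
  · exact Finset.sum_congr rfl fun i _ => by ring
  · ring

end aux

theorem p_LWE (hRR : S_RR) (hLWB : S_LWB) (hLWC : S_LWC) (hLWD : S_LWD) :
    S_LWE := by
  intro n
  obtain ⟨s, hs⟩ : ∃ s, s = 2 * (1 + n * n) := ⟨_, rfl⟩
  obtain ⟨K, hK⟩ : ∃ K, K = n * s * (n * s + n * s * (n * n + n) + 2 * n * n + n) := ⟨_, rfl⟩
  refine ⟨n * (n * n + K) + n * s, ?_⟩
  intro k E _ _ _ _ _ p e _ _ Ψ x y hp he hc Z hZ
  obtain ⟨d, hd⟩ : ∃ d, Ψ.natDegree = d + 1 := ⟨_, (Nat.succ_pred_eq_of_pos hc.pos).symm⟩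
  have hdn : d + 1 ≤ n := hd ▸ hc.le
  obtain ⟨⟨D, hD0, hDd, hDW, hDc⟩, hB2, hB3, hB4⟩ := hLWB k E Ψ n x y hc
  obtain ⟨δ, hδ, hW, -, hC⟩ := hLWC k E Ψ n x y hc
  obtain ⟨g, R⟩ := hRR k E ⟨x, hc.tr⟩
  obtain ⟨q, hq⟩ : ∃ q, q = p ^ e := ⟨_, rfl⟩
  have hpq : p ≤ q := hq ▸ Nat.le_self_pow he p
  rw [← hq] at hZ ⊢
  rw [hd] at hDd ⊢
  obtain ⟨r, hr, hrK⟩ : ∃ r, (d + 1) * (r + n * (d + 1)) < q ∧ K ≤ r := by
    have h1 : n * n + K ≤ (q - 1) / (d + 1) := by
      rw [Nat.le_div_iff_mul_le d.succ_pos]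
      have := Nat.mul_le_mul_left (n * n + K) hdn
      rw [mul_comm (n * n + K) n] at this
      exact this.trans (by omega)
    have h2 := Nat.mul_le_mul_left n hdn
    have h3 := Nat.mul_div_le (q - 1) (d + 1)
    refine ⟨(q - 1) / (d + 1) - n * (d + 1), ?_, by omega⟩
    rw [Nat.sub_add_cancel (by omega)]
    omega
  obtain ⟨J, hJ⟩ : ∃ J, J = d * s := ⟨_, rfl⟩
  obtain ⟨m, hm⟩ : ∃ m, m = (d + 1) * s := ⟨_, rfl⟩
  obtain ⟨κ, hκ⟩ : ∃ κ, κ = J + m * (n * n + n) + 2 * n * (d + 1) + n := ⟨_, rfl⟩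
  have hmn : m ≤ n * s := hm ▸ Nat.mul_le_mul_right s hdn
  have hJn : J ≤ n * s := hJ ▸ Nat.mul_le_mul_right s (by omega)
  have hJκ : J * κ ≤ r := by
    refine le_trans ?_ hrK
    rw [hK, hκ]
    gcongr
  -- the coefficients of the quotient of `Ψ (x, T)` by `T - y`
  let γ : Fin d → E := fun i => ∑ l ∈ Finset.Icc ((i : ℕ) + 1) (d + 1),
    y ^ (l - (i + 1)) * aeval x (Ψ.coeff l)
  have hγ : ∀ i, γ i ∈ Wt k n x y (n * (d + 1) + n) := fun i =>
    Submodule.sum_mem _ fun l hl => lwe_mul (by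
      have h1 : l - (i + 1) ≤ d + 1 := by have := (Finset.mem_Icc.1 hl).2; omega
      simpa using lwe_mon (k := k) (x := x) (y := y) (a := 0)
        (by simpa using Nat.mul_le_mul_left n h1)) (lwe_pol (hc.coef l))
  -- the unknown functions
  let α : Fin (d + 1) × Fin (J + 1) →
      (Fin (d + 1) × Fin (J + 1) → Fin (d + 1) × Fin (r + 1) → k) →ₗ[k] E := fun z =>
    Fintype.linearCombination k (fun w : Fin (d + 1) × Fin (r + 1) =>
      x ^ (w.2 : ℕ) * y ^ (w.1 : ℕ)) ∘ₗ LinearMap.proj z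
  have hα : ∀ z c, α z c ∈ Wt k n x y (r + n * (d + 1)) := fun z c => by
    simp only [α, LinearMap.comp_apply, Fintype.linearCombination_apply]
    exact Submodule.sum_mem _ fun w _ => Submodule.smul_mem _ _ (lwe_mon
      (add_le_add (Nat.lt_succ_iff.1 w.2.2) (Nat.mul_le_mul_left n w.1.2.le)))
  let U : ℕ → Fin (d + 1) →
      (Fin (d + 1) × Fin (J + 1) → Fin (d + 1) × Fin (r + 1) → k) →ₗ[k] E := fun t i =>
    ∑ j : Fin (J + 1), LinearMap.mulRight k (x ^ (j : ℕ)) ∘ₗ (δ ^ t) ∘ₗ α (i, j)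
  have hU : ∀ t i c, U t i c = ∑ j : Fin (J + 1), (δ ^ t) (α (i, j) c) * x ^ (j : ℕ) :=
    fun t i c => by simp only [U, LinearMap.sum_apply, LinearMap.comp_apply,
      LinearMap.mulRight_apply]
  have hUW : ∀ t < m, ∀ i c, U t i c ∈ Wt k n x y (r + n * (d + 1) + m * (n * n + n) + J) := by
    intro t ht i c
    rw [hU]
    refine Submodule.sum_mem _ fun j _ => lwe_mul (lwe_mono ?_ (lwe_dt hW (hα _ c) t)) ?_
    · gcongr
    · simpa using lwe_mon (k := k) (n := n) (x := x) (y := y) (l := 0) (s := J)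
        (by simpa using Nat.lt_succ_iff.1 j.2)
  have := R.fd ((r + κ) • D)
  obtain ⟨c, hc0, hcB⟩ := lwe_ker (LS ((r + κ) • D))
    (fun w : Fin m × Fin d =>
      U w.1 w.2.castSucc - LinearMap.mulLeft k (γ w.2) ∘ₗ U w.1 (Fin.last d))
    (fun w c => hDW _ (sub_mem (lwe_mono (by rw [hκ, mul_assoc 2]; omega) (hUW _ w.1.2 _ c))
      (lwe_mono (le_of_eq (by rw [hκ]; ring)) (lwe_mul (hγ _) (hUW _ w.1.2 _ c))))) (by
      have h1 := R.le ((r + κ) • D) (by rw [map_nsmul, hDd]; positivity)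
      rw [map_nsmul, hDd, nsmul_eq_mul, mul_comm] at h1
      have h2 := lwe_ar1 hJ hJκ (F := finrank k (LS ((r + κ) • D))) (by exact_mod_cast h1)
      simpa [Module.finrank_pi_fintype, hm] using h2)
  -- the auxiliary function
  obtain ⟨A, hA⟩ : ∃ A, A = ∑ z : Fin (d + 1) × Fin (J + 1),
    α z c * (x ^ (z.2 : ℕ) * y ^ (z.1 : ℕ)) ^ q := ⟨_, rfl⟩
  have hA0 : A ≠ 0 := fun h => hc0 (funext fun z => by
    have h1 := hLWD k E p e ((r + n * (d + 1)) • D) ⟨x, hc.tr⟩ (by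
      rw [map_nsmul, hDd, nsmul_eq_mul, mul_comm, ← hq]
      exact_mod_cast hr) _ (fun z => α z c) _ (fun z => hDW _ (hα z c)) (lwe_li hc hd (J + 1))
      (by rw [← hq, ← hA, h]) z
    exact funext (Fintype.linearIndependent_iff.1 (lwe_li hc hd (r + 1)) (c z) (by
      simpa only [α, LinearMap.comp_apply, Fintype.linearCombination_apply,
        LinearMap.proj_apply] using h1)))
  have hmq : ∀ z : Fin (d + 1) × Fin (J + 1),
      (x ^ (z.2 : ℕ) * y ^ (z.1 : ℕ)) ^ q ∈ Wt k n x y (q * (J + n * d)) := fun z => by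
    rw [mul_pow, ← pow_mul, ← pow_mul]
    refine lwe_mon ?_
    have h1 := Nat.lt_succ_iff.1 z.1.2
    have h2 := Nat.lt_succ_iff.1 z.2.2
    calc (z.2 : ℕ) * q + n * (z.1 * q) ≤ J * q + n * (d * q) := by gcongr
      _ = _ := by ring
  have hAW : A ∈ Wt k n x y (r + n * (d + 1) + q * (J + n * d)) :=
    hA ▸ Submodule.sum_mem _ fun z _ => lwe_mul (hα z c) (hmq z)
  have hδA : ∀ t, (δ ^ t) A = ∑ z : Fin (d + 1) × Fin (J + 1),
      (δ ^ t) (α z c) * (x ^ (z.2 : ℕ) * y ^ (z.1 : ℕ)) ^ q := fun t => by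
    rw [hA, map_sum]
    refine Finset.sum_congr rfl fun z _ => lwe_dm hδ hW (hα z c) (lwe_adj (hmq z)) ?_ t
    obtain ⟨q', hq'⟩ : ∃ q', q = q' + 1 := ⟨q - 1, by omega⟩
    have h1 : ((q' + 1 : ℕ) : E) = 0 := by
      rw [← map_natCast (algebraMap k E), ← hq', hq, Nat.cast_pow, CharP.cast_eq_zero k p,
        zero_pow he, map_zero]
    rw [hq', lwe_dq hδ (lwe_adj (lwe_mon (n := n) le_rfl)), h1, zero_mul, zero_mul]
  have hord : ∀ z ∈ Z, ∀ P : Place k E, Ctr x y P z.1 z.2 → (m : ℤ) ≤ ord P A := by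
    intro z hz P hP
    obtain ⟨h1, h2, h3, h4, h5⟩ := hZ z hz
    have h6 := hC P z.1 z.2 hP (by
      have := h2.aeval_derivative_ne_zero (x := z.2) (by
        rw [coe_aeval_eq_eval, map_evalRingHom_eval, h3])
      rwa [coe_aeval_eq_eval, derivative_map, map_evalRingHom_eval] at this)
      (hB4 z.1 h2 _ _ hP) m (fun t h0 ht h => by
        have := Nat.le_of_dvd h0 ((CharP.cast_eq_zero_iff k p t).1 h)
        omega) A (lwe_adj hAW) fun t ht => by
      rw [hδA]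
      refine lwe_van hP h1 γ _ (fun i => ?_) (lwe_root (hc.monic.map (evalRingHom z.1))
        ((hc.monic.natDegree_map _).trans hd) ((map_evalRingHom_eval _ _ _).trans h3)
        ((map_evalRingHom_eval _ _ _).trans h4) h5) (fun w => (δ ^ t) (α w c)) (fun w => ?_)
        fun i => ?_
      · refine lwe_sum _ fun l _ => lwe_vmul (lwe_pow ⟨le_one_of_sub hP.2, ev_eq hP.2⟩ _) ?_
        have := hB3 z.1 (C (Ψ.coeff l)) _ _ hP
        rw [aevalAeval_C, evalEval_C] at this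
        rw [coeff_map]
        exact this
      · have := mem_LS.1 (hDW _ (lwe_dt hW (hα w c) t)) P
        rwa [Finsupp.smul_apply, hDc _ _ _ hP, smul_zero, exp_zero] at this
      · have := hcB (⟨t, ht⟩, i)
        rwa [LinearMap.sub_apply, LinearMap.comp_apply, LinearMap.mulLeft_apply, hU, hU] at this
    simpa using (le_exp_iff hA0).1 h6
  choose Pl hPl using fun z : Z => hB2 z.1.1 z.1.2 (hZ z z.2).2.2.1
  have hinj : Function.Injective Pl := fun z z' h => by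
    have h1 := hPl z
    have h2 := hPl z'
    rw [← h] at h2
    exact Subtype.ext (Prod.ext ((ev_eq h1.1).symm.trans (ev_eq h2.1))
      ((ev_eq h1.2).symm.trans (ev_eq h2.2)))
  have h1 := lwe_deg ((mem_LS' hA0).1 (hDW _ hAW)) (Finset.univ.image Pl)
  rw [Finset.sum_image hinj.injOn, map_add, deg_dv, zero_add, map_nsmul, hDd, nsmul_eq_mul] at h1
  have h2 : (Z.card : ℤ) * m ≤ _ := le_trans (by
    rw [← nsmul_eq_mul, ← Fintype.card_coe, ← Finset.card_univ]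
    refine Finset.card_nsmul_le_sum _ _ _ fun z _ => ?_
    rw [Finsupp.add_apply, dv_apply, Finsupp.smul_apply, hDc _ _ _ (hPl z), smul_zero, add_zero]
    exact hord z z.2 _ (hPl z)) h1
  refine lwe_ar2 hs (by omega) hr.le ?_
  rw [← hm, ← hJ, mul_comm m, mul_comm (d + 1)]
  exact_mod_cast h2

end Pool.Agent.P.MP_ab3ecb_nt.Inv
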