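import Pool.Agent.P.MP_ab3ecb_nt.Inv.E.Iface

/-! Step BN of the twist project. -/

namespace Pool.Agent.P.MP_ab3ecb_nt.Inv

open WithZero Polynomial Module NumberField
open Pool.Agent.P.MP_6f117a_ag (Place FF Model Reg)
open scoped IntermediateField Classical Polynomial.Bivariate

theorem bn_point {K k σ : Type} [Field K] [NumberField K] [Field k] [IsAlgClosed k] [Algebra K k]
    [Finite σ] (I : Ideal (MvPolynomial σ (𝓞 K)))
    (hI : ∀ m : ℕ, m ≠ 0 → (m : MvPolynomial σ (𝓞 K)) ∉ I) :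
    ∃ φ : MvPolynomial σ (𝓞 K) →+* k,
      φ.comp MvPolynomial.C = (algebraMap K k).comp (algebraMap (𝓞 K) K) ∧ ∀ p ∈ I, φ p = 0 := by
  letI := MvPolynomial.algebraMvPolynomial (σ := σ) (R := 𝓞 K) (S := K)
  have h1 : I.map (algebraMap _ (MvPolynomial σ K)) ≠ ⊤ := by
    refine (IsLocalization.map_algebraMap_ne_top_iff_disjoint
      ((nonZeroDivisors (𝓞 K)).map (MvPolynomial.C (σ := σ))) (MvPolynomial σ K) I).2
      (Set.disjoint_left.2 ?_)
    rintro _ ⟨a, ha, rfl⟩ h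
    have h0 : Ideal.absNorm (Ideal.span {a}) ≠ 0 := by
      rw [Ne, Ideal.absNorm_eq_zero_iff, Ideal.span_singleton_eq_bot]
      exact nonZeroDivisors.ne_zero ha
    obtain ⟨b, hb⟩ := Ideal.mem_span_singleton'.1 (Ideal.absNorm_mem (Ideal.span {a}))
    refine hI _ h0 ?_
    rw [← map_natCast MvPolynomial.C, ← hb, map_mul]
    exact I.mul_mem_left _ h
  obtain ⟨x, hx⟩ : (MvPolynomial.zeroLocus k
      (I.map (algebraMap _ (MvPolynomial σ K)))).Nonempty := by
    refine Set.nonempty_iff_ne_empty.2 fun e => h1 ?_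
    rw [← Ideal.radical_eq_top, ← MvPolynomial.vanishingIdeal_zeroLocus_eq_radical (K := k), e,
      MvPolynomial.vanishingIdeal_empty]
  refine ⟨(MvPolynomial.aeval x : MvPolynomial σ K →ₐ[K] k).toRingHom.comp (algebraMap _ _),
    RingHom.ext fun a => ?_, fun p hp => hx _ (Ideal.mem_map_of_mem _ hp)⟩
  change MvPolynomial.aeval x (MvPolynomial.map (algebraMap (𝓞 K) K) (MvPolynomial.C a)) = _
  rw [MvPolynomial.map_C, MvPolynomial.aeval_C]
  rfl

theorem bn_swap {R : Type} [CommRing R] (p : R[X][Y]) (i j : ℕ) :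
    ((Bivariate.swap p).coeff j).coeff i = (p.coeff i).coeff j := by
  induction p using Polynomial.induction_on' with
  | add p q hp hq => simp only [map_add, coeff_add, hp, hq]
  | monomial n f =>
    rw [Bivariate.swap_monomial, coeff_mul_C, coeff_map, coeff_C_mul, coeff_X_pow, coeff_monomial]
    by_cases h : n = i
    · simp [h]
    · simp [h, Ne.symm h]

theorem bn_le {R : Type} [CommRing R] {p : R[X][Y]} {N : ℕ} :
    (Bivariate.swap p).natDegree ≤ N ↔ ∀ i, (p.coeff i).natDegree ≤ N := by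
  simp only [natDegree_le_iff_coeff_eq_zero, Polynomial.ext_iff, bn_swap, coeff_zero]
  exact ⟨fun h i j hj => h j hj i, fun h j hj i => h i j hj⟩

/-- monic polynomials with given coefficients -/
noncomputable def bn_W {R : Type} [CommRing R] (a : ℕ → ℕ → R) (e N : ℕ) : R[X][Y] :=
  Y ^ e + ∑ i ∈ Finset.range e, monomial i (∑ j ∈ Finset.range (N + 1), monomial j (a i j))

theorem bn_map {R T : Type} [CommRing R] [CommRing T] (φ : R →+* T) (a : ℕ → ℕ → R) (e N : ℕ) :
    (bn_W a e N).map (mapRingHom φ) = bn_W (fun i j => φ (a i j)) e N := by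
  simp [bn_W, Polynomial.map_sum]

theorem bn_monic {R : Type} [CommRing R] [Nontrivial R] (a : ℕ → ℕ → R) (e N : ℕ) :
    (bn_W a e N).Monic ∧ (bn_W a e N).natDegree = e := by
  have h : (∑ i ∈ Finset.range e, monomial i
      (∑ j ∈ Finset.range (N + 1), monomial j (a i j)) : R[X][Y]).degree < e :=
    (degree_sum_le _ _).trans_lt ((Finset.sup_lt_iff (WithBot.bot_lt_coe e)).2 fun i hi =>
      (degree_monomial_le _ _).trans_lt (WithBot.coe_lt_coe.2 (Finset.mem_range.1 hi)))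
  refine ⟨monic_X_pow_add h, ?_⟩
  rw [bn_W, natDegree_add_eq_left_of_degree_lt (by rwa [degree_X_pow]), natDegree_X_pow]

theorem bn_eq {R : Type} [CommRing R] {a : ℕ → ℕ → R} {N : ℕ} {G : R[X][Y]} (hG : G.Monic)
    (hN : ∀ i, (G.coeff i).natDegree ≤ N)
    (ha : ∀ i < G.natDegree, ∀ j < N + 1, a i j = (G.coeff i).coeff j) :
    bn_W a G.natDegree N = G := by
  refine Eq.trans ?_ hG.as_sum.symm
  rw [bn_W, add_right_inj]
  refine Finset.sum_congr rfl fun i hi => ?_
  rw [C_mul_X_pow_eq_monomial, (monomial_injective i).eq_iff]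
  refine Eq.trans ?_ ((G.coeff i).as_sum_range' (N + 1) (Nat.lt_succ_of_le (hN i))).symm
  exact Finset.sum_congr rfl fun j hj => by
    rw [ha i (Finset.mem_range.1 hi) j (Finset.mem_range.1 hj)]

/-- the universal coefficients -/
noncomputable def bn_v (R : Type) [CommRing R] (d N : ℕ) (b : Bool) (i j : ℕ) :
    MvPolynomial (Bool × Fin d × Fin (N + 1)) R :=
  if h : i < d ∧ j < N + 1 then MvPolynomial.X (b, ⟨i, h.1⟩, ⟨j, h.2⟩) else 0

theorem p_BN :
    S_BN := by
  intro K k _ _ _ _ _ Φ hΦ hi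
  obtain ⟨d, hd⟩ : ∃ d, Φ.natDegree = d := ⟨_, rfl⟩
  obtain ⟨N, hN⟩ : ∃ N, ∀ i, (Φ.coeff i).natDegree ≤ N := ⟨_, bn_le.1 le_rfl⟩
  have mp : ∀ {T : Type} [CommRing T] (φ : MvPolynomial (Bool × Fin d × Fin (N + 1)) (𝓞 K) →+* T)
      (e : ℕ), (bn_W (bn_v (𝓞 K) d N false) e N * bn_W (bn_v (𝓞 K) d N true) (d - e) N -
        Φ.map (mapRingHom MvPolynomial.C)).map (mapRingHom φ) = 0 ↔
      bn_W (fun i j => φ (bn_v (𝓞 K) d N false i j)) e N *
        bn_W (fun i j => φ (bn_v (𝓞 K) d N true i j)) (d - e) N =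
          Φ.map (mapRingHom (φ.comp MvPolynomial.C)) := fun φ e => by
    rw [Polynomial.map_sub, Polynomial.map_mul, bn_map, bn_map, Polynomial.map_map,
      mapRingHom_comp, sub_eq_zero]
  obtain ⟨h1, h2⟩ := (hΦ.map _).irreducible_iff_natDegree.1 hi
  have key : ∀ e, ∃ M : ℕ, M ≠ 0 ∧ (0 < e → e < d → ∀ (κ : Type) [Field κ]
      (φ : MvPolynomial (Bool × Fin d × Fin (N + 1)) (𝓞 K) →+* κ), (M : κ) ≠ 0 →
      (bn_W (bn_v (𝓞 K) d N false) e N * bn_W (bn_v (𝓞 K) d N true) (d - e) N -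
        Φ.map (mapRingHom MvPolynomial.C)).map (mapRingHom φ) ≠ 0) := fun e => by
    by_contra hc
    push Not at hc
    obtain ⟨e0, ed, -⟩ := hc 1 one_ne_zero
    have mp' := mp (T := k) (e := e)
    generalize bn_W (bn_v (𝓞 K) d N false) e N * bn_W (bn_v (𝓞 K) d N true) (d - e) N -
      Φ.map (mapRingHom MvPolynomial.C) = p at hc mp'
    obtain ⟨φ, a1, a2⟩ := bn_point (k := k)
      (Ideal.span (Set.range fun q : ℕ × ℕ => (p.coeff q.1).coeff q.2)) fun m hm h => by
        obtain ⟨-, -, κ, _, ψ, b1, b2⟩ := hc m hm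
        have : Ideal.span (Set.range fun q : ℕ × ℕ => (p.coeff q.1).coeff q.2) ≤ RingHom.ker ψ := by
          rw [Ideal.span_le]
          rintro _ ⟨q, rfl⟩
          simpa using congrArg (fun r => (r.coeff q.1).coeff q.2) b2
        exact b1 (by simpa using this h)
    have h3 := (mp' φ).1 (Polynomial.ext fun i => Polynomial.ext fun j => by
      simpa using a2 _ (Ideal.subset_span ⟨(i, j), rfl⟩))
    rw [a1] at h3
    have h4 := h2 _ _ (bn_monic _ _ _).1 (bn_monic _ _ _).1 h3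
    rw [(bn_monic _ _ _).2, (bn_monic _ _ _).2] at h4
    omega
  choose M M0 hM using key
  refine ⟨∏ e ∈ Finset.range d, M e, Finset.prod_ne_zero_iff.2 fun e _ => M0 e, fun κ _ l hl => ?_⟩
  have hm := hΦ.map (mapRingHom l)
  have hdl : (Φ.map (mapRingHom l)).natDegree = d := by rw [hΦ.natDegree_map, hd]
  refine hm.irreducible_iff_natDegree.2 ⟨fun e => h1 ?_, fun G H hG hH e => ?_⟩
  · rw [e, natDegree_one, ← hd] at hdl
    rw [hΦ.natDegree_eq_zero.1 hdl.symm, Polynomial.map_one]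
  by_contra hc
  rw [← e, hG.natDegree_mul hH] at hdl
  have bd : ∀ P : κ[X][Y], P ∣ Φ.map (mapRingHom l) → ∀ i, (P.coeff i).natDegree ≤ N :=
    fun P hP => bn_le.1 ((natDegree_le_of_dvd (map_dvd Bivariate.swap hP)
      ((map_ne_zero_iff _ Bivariate.swap.injective).2 hm.ne_zero)).trans (bn_le.2 fun i => by
        rw [coeff_map]
        exact natDegree_map_le.trans (hN i)))
  let φ : MvPolynomial (Bool × Fin d × Fin (N + 1)) (𝓞 K) →+* κ :=
    MvPolynomial.eval₂Hom l fun q => ((bif q.1 then H else G).coeff q.2.1).coeff q.2.2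
  have hφ : ∀ b, ∀ i < d, ∀ j < N + 1,
      φ (bn_v (𝓞 K) d N b i j) = ((bif b then H else G).coeff i).coeff j := fun b i hi j hj => by
    rw [bn_v, dif_pos ⟨hi, hj⟩, MvPolynomial.eval₂Hom_X']
  refine hM G.natDegree (by omega) (by omega) κ φ (fun h0 => hl ?_) ((mp φ _).2 ?_)
  · rw [Nat.cast_prod]
    exact Finset.prod_eq_zero (Finset.mem_range.2 (by omega)) h0
  · rw [show d - G.natDegree = H.natDegree by omega,
      bn_eq hG (bd G ⟨H, e.symm⟩) fun i hi => hφ false i (by omega),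
      bn_eq hH (bd H ⟨G, by rw [← e, mul_comm]⟩) fun i hi => hφ true i (by omega), e,
      MvPolynomial.eval₂Hom_comp_C]

end Pool.Agent.P.MP_ab3ecb_nt.Inv
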