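import Pool.Agent.P.MP_ab3ecb_nt.Inv.E.Iface
import Pool.Agent.P.MP_ab3ecb_nt.Inv.A.Iface

/-! Step ELS of the twist project. -/

namespace Pool.Agent.P.MP_ab3ecb_nt.Inv

open WithZero Polynomial Module NumberField
open Pool.Agent.P.MP_6f117a_ag (Place FF Model Reg)
open scoped IntermediateField Classical Polynomial.Bivariate

lemma els_sq {A R L : Type} [CommRing A] [CommRing R] [CommRing L] (ψ : R →+* L) (θ : A →+* L)
    {α : A} (h : IsSquare (inc A R α)) : IsSquare (θ α) := by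
  have := h.map (Algebra.TensorProduct.lift ψ.toIntAlgHom θ.toIntAlgHom fun _ _ => Commute.all _ _)
  simpa [inc] using this

lemma els_top {K F L : Type} [Field K] [Field F] [Field L] {ι : K →+* F} {ρ : K →+* L} {f : F}
    {d : K} (hf : f ≠ 0) (φ : F →+* L) (h : φ.comp ι = ρ) (hs : IsSquare (ρ d * φ f)) :
    ∃ P : KPt ι ρ, Lifts f d P := by
  have hu : ∀ x : (⊤ : ValuationSubring F), (x : F) ≠ 0 → IsUnit x := fun x hx =>
    isUnit_iff_exists_inv.2 ⟨⟨(x : F)⁻¹, trivial⟩, Subtype.ext (mul_inv_cancel₀ hx)⟩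
  refine ⟨⟨⟨⊤, φ.comp (⊤ : ValuationSubring F).subtype, ⟨fun x hx => hu x fun h0 => ?_⟩⟩,
    fun _ => trivial, fun c => RingHom.congr_fun h c⟩,
    Or.inr ⟨⟨f, trivial⟩, hu _ hf, ⟨f, rfl⟩, hs⟩⟩
  exact hx.ne_zero (by rw [RingHom.comp_apply, ValuationSubring.subtype_apply, h0, map_zero])

section

variable {K : Type} [Field K] [NumberField K]

omit [NumberField K] in
lemma els_prime (v : Pl K) (n : ℕ) : n ≠ 0 → (n : 𝓞 K) ∈ v.asIdeal →
    ∃ p : ℕ, p.Prime ∧ p ∣ n ∧ (p : 𝓞 K) ∈ v.asIdeal := by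
  induction n using Nat.recOnMul with
  | zero => exact fun h => absurd rfl h
  | one =>
    exact fun _ h => absurd ((Ideal.eq_top_iff_one _).2 (by simpa using h)) v.isPrime.ne_top
  | prime p hp => exact fun _ h => ⟨p, hp, dvd_rfl, h⟩
  | mul a b ha hb =>
    intro h0 h
    rw [Nat.cast_mul] at h
    rcases v.isPrime.mem_or_mem h with h | h
    · obtain ⟨p, h1, h2, h3⟩ := ha (left_ne_zero_of_mul h0) h
      exact ⟨p, h1, h2.mul_right b, h3⟩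
    · obtain ⟨p, h1, h2, h3⟩ := hb (right_ne_zero_of_mul h0) h
      exact ⟨p, h1, h2.mul_left a, h3⟩

lemma els_od {v : Pl K} {x y : K} (hx : x ≠ 0) (hy : y ≠ 0) (h : ¬ Od v x) (h' : Od v (x * y)) :
    Od v y := by
  rw [Od, Int.not_odd_iff_even] at h
  rw [Od, map_mul, log_mul ((_root_.map_ne_zero _).2 hx) ((_root_.map_ne_zero _).2 hy),
    Int.odd_add'] at h'
  exact h'.2 h

lemma els_root (hTAME : S_TAME) {Pz : ℤ[X]} {F0 F1 : (𝓞 K)[X]} {M : ℕ} (hP : Pol Pz F0 F1 M)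
    {z : GP K} (hz : ¬ z.1.1 ∣ M) {t : ZMod z.1.1} (ht : F0.eval₂ z.2 t = 0) :
    ∃ b : Kv z.pl, (F0.map (algebraMap (𝓞 K) K)).eval₂ (algebraMap K (Kv z.pl)) b = 0 := by
  have : Fact z.1.1.Prime := ⟨z.1.2⟩
  have hM : ((M : ℕ) : ZMod z.1.1) ≠ 0 := mt (ZMod.natCast_eq_zero_iff _ _).1 hz
  obtain ⟨res, h⟩ := hTAME K M z.1.1 z.pl (ZMod z.1.1) z.2 hP.du hP.two
    (by rwa [GP.mem_pl, map_natCast]) z.1.2 (by simp [GP.mem_pl]) (ZMod.ringHom_surjective z.2) rfl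
  have h1 : res.comp (algebraMap (𝓞 K) (Ov z.pl)) = z.2 := RingHom.ext h.comp
  obtain ⟨a, rfl⟩ := h.surj t
  have h2 : (derivative F0).eval₂ z.2 (res a) ≠ 0 := fun h2 => by
    obtain ⟨u, w, h3⟩ := hP.sep
    have h4 := congrArg (fun G : ℤ[X] => (G.map (Int.castRingHom (𝓞 K))).eval₂ z.2 (res a)) h3
    simp only [Polynomial.map_add, Polynomial.map_mul, ← derivative_map, ← hP.mul, derivative_mul,
      eval₂_add, eval₂_mul, ht, h2, map_C, eval₂_C] at h4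
    exact hM (by simpa using h4.symm)
  obtain ⟨b, hb, -⟩ := h.hensel (F0.map (algebraMap (𝓞 K) (Ov z.pl))) a (hP.m0.map _)
    (by rwa [eval_map, hom_eval₂, h1]) (by rwa [derivative_map, eval_map, hom_eval₂, h1])
  refine ⟨algebraMap (Ov z.pl) (Kv z.pl) b, ?_⟩
  have h3 := congrArg (algebraMap (Ov z.pl) (Kv z.pl)) hb
  rw [eval_map, hom_eval₂, map_zero] at h3
  rw [eval₂_map]
  exact h3

end

theorem p_ELS (hPT : S_PT) (hTW : S_TW) (hTAME : S_TAME) (hPADIC : S_PADIC) :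
    S_ELS := by
  intro K F _ _ _ ι f Pz F0 F1 M d0 hf hP hB hG hd0 hod ⟨E0, _, _, j0, y0, h0, ⟨A0⟩⟩ α hα hbad hv
  have : CharZero F := (RingHom.charZero_iff ι.injective).1 inferInstance
  have hα' : (α : K) ≠ 0 := RingOfIntegers.coe_ne_zero_iff.2 hα
  have hd : d0 * (α : K) ≠ 0 := mul_ne_zero hd0 hα'
  obtain ⟨E, _, _, j, y, h1⟩ := hTW F f (ι (d0 * α)) ((_root_.map_ne_zero ι).2 hd)
  have key : ∀ (L : Type) [Field L] (ρ : K →+* L), Nonempty (KPt (j0.comp ι) ρ) →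
      IsSquare (ρ α) → ∃ P : KPt ι ρ, Lifts f (d0 * α) P := fun L _ ρ h2 h3 => by
    obtain ⟨P, h4⟩ := (hPT K F E0 L ι ρ f d0 j0 y0 hf hd0 h0).1 h2
    refine ⟨P, h4.imp_right fun ⟨u, k1, k2, k3⟩ => ⟨u, k1, k2, ?_⟩⟩
    rw [map_mul, mul_right_comm]
    exact k3.mul h3
  have hinf : ∀ ρ : K →+* ℝ, Nonempty (KPt (j.comp ι) ρ) := fun ρ =>
    (hPT K F E ℝ ι ρ f _ j y hf hd h1).2 (key ℝ ρ ⟨A0.inf ρ⟩
      (els_sq (RingHom.id ℝ) (ρ.comp (algebraMap (𝓞 K) K)) hbad.1))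
  have hfin : ∀ v : Pl K, Nonempty (KPt (j.comp ι) (algebraMap K (Kv v))) := fun v => by
    refine (hPT K F E (Kv v) ι _ f _ j y hf hd h1).2 ?_
    by_cases hM : (M : 𝓞 K) ∈ v.asIdeal
    · obtain ⟨p, hp, h2, h3⟩ := els_prime v M hP.M0 hM
      have : Fact p.Prime := ⟨hp⟩
      obtain ⟨-, ⟨ψ⟩⟩ := hPADIC K v p h3
      exact key _ _ ⟨A0.fin v⟩ (els_sq ψ ((algebraMap K (Kv v)).comp (algebraMap (𝓞 K) K))
        (hbad.2 ⟨p, Nat.mem_primeFactors.2 ⟨hp, h2, hP.M0⟩⟩))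
    by_cases h2 : Od v (d0 * α)
    · obtain ⟨z, ⟨h3, t, h4⟩, rfl⟩ := hv v hM (els_od hd0 hα' (fun h3 => hM (hod v h3)) h2)
      obtain ⟨b, hb⟩ := els_root hTAME hP h3 h4
      obtain ⟨P, h5⟩ := hB _ _ b hb
      exact ⟨P, Or.inl h5⟩
    · obtain ⟨φ, h3, h4⟩ := hG v hM _ hd h2
      exact els_top hf φ h3 h4
  exact ⟨E, inferInstance, inferInstance, j, y, h1,
    ⟨⟨fun ρ => (hinf ρ).some, fun v => (hfin v).some⟩⟩⟩

end Pool.Agent.P.MP_ab3ecb_nt.Inv
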