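import Pool.Agent.P.MP_ab3ecb_nt.Inv.E.Iface
import Pool.Agent.P.MP_ab3ecb_nt.Inv.A.Iface

/-! Step GOOD of the twist project. -/

namespace Pool.Agent.P.MP_ab3ecb_nt.Inv

open WithZero Polynomial Module NumberField
open Pool.Agent.P.MP_6f117a_ag (Place FF Model Reg)
open scoped IntermediateField Classical Polynomial.Bivariate

/-- The completion contains a transcendental element. -/
lemma good_trans {K : Type} [Field K] [NumberField K] (v : Pl K) :
    ∃ t : Kv v, ¬ IsAlgebraic K t := by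
  by_contra h
  have h1 : ∀ t : Kv v, IsAlgebraic K t := fun t => by
    by_contra h2
    exact h ⟨t, h2⟩
  have : Countable K := Finsupp.Countable.of_moduleFinite (R := ℚ)
  have h2 := Algebraic.countable K (Kv v)
  rw [Set.eq_univ_of_forall (s := {x : Kv v | IsAlgebraic K x}) h1, Set.countable_univ_iff] at h2
  let _ : NontriviallyNormedField (Kv v) := Valued.toNontriviallyNormedField (Kv v) ℤᵐ⁰
  have h3 := continuum_le_cardinal_of_nontriviallyNormedField (Kv v)
  exact absurd (Cardinal.aleph0_lt_continuum.trans_le h3) (not_lt.2 Cardinal.mk_le_aleph0)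

/-- The substitution `X ↦ c X ^ 2` combined with a map of coefficients. -/
noncomputable def good_sub {O κ : Type} [CommRing O] [CommRing κ] (l : O →+* κ) (c : κ) :
    O[X] →+* κ[X] :=
  eval₂RingHom (C.comp l) (C c * X ^ 2)

lemma good_sub_deg {O κ : Type} [CommRing O] [CommRing κ] (l : O →+* κ) (c : κ) (p : O[X]) :
    (good_sub l c p).natDegree ≤ p.natDegree * 2 := by
  have h1 : good_sub l c p = (p.map l).comp (C c * X ^ 2) := by
    rw [good_sub, coe_eval₂RingHom, comp, eval₂_map]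
  rw [h1]
  exact natDegree_comp_le.trans (Nat.mul_le_mul natDegree_map_le (natDegree_C_mul_X_pow_le c 2))

lemma good_irr {O κ κ' : Type} [CommRing O] [Field κ] [Field κ'] [IsAlgClosed κ']
    (l : O →+* κ) (ψ : κ →+* κ') {c : κ} (hc : c ≠ 0) (Φ : O[X][Y])
    (h : Irreducible ((Φ.map (expand O 2).toRingHom).map (mapRingHom (ψ.comp l)))) :
    Irreducible ((Φ.map (good_sub l c)).map (mapRingHom ψ)) := by
  obtain ⟨β, hβ⟩ := IsAlgClosed.exists_pow_nat_eq (ψ c) (n := 2) two_pos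
  have h0 : β ≠ 0 := by
    rintro rfl
    exact (_root_.map_ne_zero ψ).2 hc (by rw [← hβ]; simp)
  let _ := invertibleOfNonzero h0
  let σ : κ'[X] ≃+* κ'[X] := (algEquivCMulXAddC β 0).toRingEquiv
  have h1 := (MulEquiv.irreducible_iff (mapEquiv σ)).2 h
  have h2 : (σ : κ'[X] →+* κ'[X]).comp ((mapRingHom (ψ.comp l)).comp (expand O 2).toRingHom) =
      (mapRingHom ψ).comp (good_sub l c) := by
    refine ringHom_ext (fun a => ?_) ?_
    · simp [σ, good_sub]
    · simp [σ, good_sub, mul_pow, ← C_pow, hβ]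
  rw [mapEquiv_apply, Polynomial.map_map, Polynomial.map_map, RingHom.comp_assoc, h2] at h1
  rwa [Polynomial.map_map]

lemma good_lift {q : ℕ} {O R L κ : Type} [CommRing O] [CommRing R] [Field L] [Algebra R L]
    [Field κ] {res : R →+* κ} (h : Tame q L res) (ρ : O →+* R) {Φ : O[X][Y]} (hΦ : Φ.Monic)
    (u s : R) (b : κ) (h1 : (Φ.map (good_sub (res.comp ρ) (res u))).evalEval (res s) b = 0)
    (h2 : (derivative (Φ.map (good_sub (res.comp ρ) (res u)))).evalEval (res s) b ≠ 0) :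
    ∃ z : R, Φ.eval₂ (eval₂RingHom ρ (u * s ^ 2)) z = 0 := by
  obtain ⟨b, rfl⟩ := h.surj b
  have h3 : (evalRingHom (res s)).comp (good_sub (res.comp ρ) (res u)) =
      res.comp (eval₂RingHom ρ (u * s ^ 2)) := by
    refine ringHom_ext (fun a => ?_) ?_
    · simp [good_sub]
    · simp [good_sub]
  have h4 : ∀ G : O[X][Y], (G.map (good_sub (res.comp ρ) (res u))).evalEval (res s) (res b) =
      res ((G.map (eval₂RingHom ρ (u * s ^ 2))).eval b) := fun G => by
    rw [← map_evalRingHom_eval, Polynomial.map_map, h3, eval_map, eval_map, hom_eval₂]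
  rw [derivative_map, h4, ← derivative_map] at h2
  rw [h4] at h1
  obtain ⟨z, hz, -⟩ := h.hensel _ b (hΦ.map _) h1 h2
  exact ⟨z, by rwa [eval_map] at hz⟩

theorem p_GOOD (hBN : S_BN) (hLW : S_LW) (hTAME : S_TAME) :
    S_GOOD := by
  intro K F k _ _ _ _ _ _ ι f Φ hΦ hirr hφ
  set N := Φ.support.sup fun i => (Φ.coeff i).natDegree with hN
  have hdeg : ∀ i, (Φ.coeff i).natDegree ≤ N := fun i => by
    by_cases hi : i ∈ Φ.support
    · exact Finset.le_sup (f := fun i => (Φ.coeff i).natDegree) hi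
    · rw [notMem_support_iff.1 hi]
      simp
  obtain ⟨p0, hp0⟩ := hLW (Φ.natDegree + N * 2)
  obtain ⟨M1, hM1, hB⟩ := hBN K k _ (hΦ.map _) hirr
  obtain ⟨r, hr0, hdu⟩ := exists_dual (𝓞 K)
  refine ⟨2 * p0.factorial * M1 * r.natAbs, by
    have := p0.factorial_pos
    have := Int.natAbs_pos.2 hr0
    positivity, fun v hv d hd hod => ?_⟩
  have := v.isMaximal
  let _ : Field (𝓞 K ⧸ v.asIdeal) := Ideal.Quotient.field v.asIdeal
  have : Finite (𝓞 K ⧸ v.asIdeal) := Ideal.finiteQuotientOfFreeOfNeBot _ v.ne_bot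
  set l : 𝓞 K →+* 𝓞 K ⧸ v.asIdeal := Ideal.Quotient.mk v.asIdeal with hl
  set q := ringChar (𝓞 K ⧸ v.asIdeal) with hq
  have hqp : q.Prime := CharP.char_is_prime (𝓞 K ⧸ v.asIdeal) q
  have hmem : ∀ m : ℕ, (m : 𝓞 K) ∈ v.asIdeal ↔ q ∣ m := fun m => by
    rw [← Ideal.Quotient.eq_zero_iff_mem, map_natCast, ringChar.spec]
  obtain ⟨res, h⟩ := hTAME K _ q v _ l (hdu _ (by
      push_cast
      exact Dvd.dvd.mul_left ((dvd_abs r r).2 dvd_rfl) _))
    ⟨p0.factorial * M1 * r.natAbs, by ring⟩ hv hqp ((hmem q).2 dvd_rfl)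
    Ideal.Quotient.mk_surjective Ideal.mk_ker
  rw [hmem] at hv
  have hlt : p0 < q := by
    by_contra h1
    exact hv ((((hqp.dvd_factorial).2 (not_lt.1 h1)).mul_left 2).mul_right _ |>.mul_right _)
  have hM : ((M1 : ℕ) : AlgebraicClosure (𝓞 K ⧸ v.asIdeal)) ≠ 0 := by
    rw [← map_natCast (algebraMap (𝓞 K ⧸ v.asIdeal) _), _root_.map_ne_zero, Ne, ringChar.spec]
    exact fun h1 => hv ((h1.mul_left _).mul_right _)
  have h1 : res.comp (algebraMap (𝓞 K) (Ov v)) = l := RingHom.ext h.comp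
  obtain ⟨n, u, hu, hdu⟩ := h.dec (algebraMap K (Kv v) d) ((_root_.map_ne_zero _).2 hd)
  rw [h.od d u n hu hdu, Int.not_odd_iff_even] at hod
  obtain ⟨m, rfl⟩ := hod
  obtain ⟨a, b, -, ha, hb⟩ := hp0 (𝓞 K ⧸ v.asIdeal) (Φ.map (good_sub l (res u))) hlt (hΦ.map _)
    (natDegree_map_le.trans (Nat.le_add_right _ _))
    (fun i => by
      rw [coeff_map]
      exact (good_sub_deg _ _ _).trans ((Nat.mul_le_mul_right 2 (hdeg i)).trans
        (Nat.le_add_left _ _)))
    (good_irr l _ ((h.unit u).1 hu) Φ (hB _ _ hM))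
  obtain ⟨a, rfl⟩ := Ideal.Quotient.mk_surjective a
  obtain ⟨τ, hτ⟩ := good_trans v
  obtain ⟨e, w, -, hw⟩ := h.dec τ (by
    rintro rfl
    exact hτ isAlgebraic_zero)
  have : CharZero (Kv v) := charZero_of_injective_algebraMap (algebraMap K (Kv v)).injective
  have hq0 : (q : Kv v) ≠ 0 := Nat.cast_ne_zero.2 hqp.ne_zero
  have hs : res (algebraMap (𝓞 K) (Ov v) a + q * w) = l a := by
    rw [map_add, h.comp, (h.ker (q * w)).2 (dvd_mul_right _ _), add_zero]
  rw [← hl, ← hs, ← h1] at ha hb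
  obtain ⟨z, hz⟩ := good_lift h.toTame _ hΦ u _ b ha hb
  set s := algebraMap (𝓞 K) (Ov v) a + q * w with hs'
  have hqa : ∀ j : ℤ, IsIntegral K ((q : Kv v) ^ j) := fun j => by
    rw [← map_natCast (algebraMap K (Kv v)), ← map_zpow₀]
    exact isIntegral_algebraMap
  have ht : ¬ IsAlgebraic K (algebraMap (Ov v) (Kv v) (u * s ^ 2)) := fun h2 => by
    have h3 : IsIntegral K ((algebraMap (Ov v) (Kv v) s) ^ 2) := by
      have h4 : (algebraMap (Ov v) (Kv v) s) ^ 2 = algebraMap (Ov v) (Kv v) (u * s ^ 2) *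
          (q : Kv v) ^ (m + m) * algebraMap K (Kv v) d⁻¹ := by
        rw [map_inv₀, eq_mul_inv_iff_mul_eq₀ ((_root_.map_ne_zero _).2 hd), hdu, map_mul, map_pow]
        ring
      rw [h4]
      exact (h2.isIntegral.mul (hqa _)).mul isIntegral_algebraMap
    have h4 : τ = (algebraMap (Ov v) (Kv v) s - algebraMap K (Kv v) (algebraMap (𝓞 K) K a)) *
        (q : Kv v) ^ (e - 1) := by
      have h5 : algebraMap (Ov v) (Kv v) (algebraMap (𝓞 K) (Ov v) a) =
          algebraMap K (Kv v) (algebraMap (𝓞 K) K a) := rfl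
      rw [hw, hs', map_add, h5, map_mul, map_natCast, zpow_sub_one₀ hq0]
      field_simp
      ring
    exact hτ (h4 ▸ (((h3.of_pow two_pos).sub isIntegral_algebraMap).mul (hqa _)).isAlgebraic)
  obtain ⟨φ, h2, h3⟩ := hφ (Kv v) (algebraMap K (Kv v)) (algebraMap (Ov v) (Kv v) (u * s ^ 2))
    (algebraMap (Ov v) (Kv v) z)
    (fun p hp => by
      by_contra h2
      exact ht ⟨p, h2, hp⟩)
    (by
      have h2 := congrArg (algebraMap (Ov v) (Kv v)) hz
      rw [hom_eval₂, map_zero] at h2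
      rw [← h2]
      congr 1
      refine ringHom_ext (fun c => ?_) ?_
      · simp only [RingHom.comp_apply, coe_eval₂RingHom, eval₂_C]
        rfl
      · simp only [RingHom.comp_apply, coe_eval₂RingHom, eval₂_X])
  refine ⟨φ, h2, algebraMap (Ov v) (Kv v) (u * s) * (q : Kv v) ^ m, ?_⟩
  rw [h3, hdu, map_mul, map_mul, map_pow, zpow_add₀ hq0]
  ring

end Pool.Agent.P.MP_ab3ecb_nt.Inv
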