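import Pool.Agent.P.MP_ab3ecb_nt.Inv.E.Iface

/-! Step LWA of the twist project. -/

namespace Pool.Agent.P.MP_ab3ecb_nt.Inv

open WithZero Polynomial Module NumberField
open Pool.Agent.P.MP_6f117a_ag (Place FF Model Reg)
open scoped IntermediateField Classical Polynomial.Bivariate

theorem p_LWA :
    S_LWA := by
  intro k _ Ψ n hm hi hle hc
  let Φ : (RatFunc k)[X] := Ψ.map (algebraMap k[X] (RatFunc k))
  have hΦ : Irreducible Φ := hm.irreducible_iff_irreducible_map_fraction_map.1 hi
  have : Fact (Irreducible Φ) := ⟨hΦ⟩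
  have hX : k⟮(RatFunc.X : RatFunc k)⟯ = ⊤ := RatFunc.adjoin_X
  have : FiniteDimensional k⟮(RatFunc.X : RatFunc k)⟯ (RatFunc k) := by
    rw [hX]
    exact Module.Finite.of_surjective (Algebra.linearMap _ _) fun z => ⟨⟨z, trivial⟩, rfl⟩
  have : FiniteDimensional (RatFunc k) (AdjoinRoot Φ) := (AdjoinRoot.powerBasis hΦ.ne_zero).finite
  have hx : ∀ c : k[X], aeval (algebraMap (RatFunc k) (AdjoinRoot Φ) RatFunc.X) c =
      algebraMap (RatFunc k) (AdjoinRoot Φ) (algebraMap k[X] (RatFunc k) c) := fun c => by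
    rw [aeval_algebraMap_apply, RatFunc.aeval_X_left_eq_algebraMap]
  have he : ∀ G : k[X][Y], aevalAeval (algebraMap (RatFunc k) (AdjoinRoot Φ) RatFunc.X)
      (AdjoinRoot.root Φ) G = AdjoinRoot.mk Φ (G.map (algebraMap k[X] (RatFunc k))) := fun G => by
    induction G using Polynomial.induction_on' with
    | add p q hp hq => rw [map_add, Polynomial.map_add, map_add, hp, hq]
    | monomial i c =>
      rw [← C_mul_X_pow_eq_monomial, map_mul, map_pow, aevalAeval_C, aevalAeval_Y, hx,
        Polynomial.map_mul, Polynomial.map_pow, map_C, map_X, map_mul, map_pow, AdjoinRoot.mk_X,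
        AdjoinRoot.mk_C]
      rfl
  refine ⟨AdjoinRoot Φ, inferInstance, inferInstance,
    (PL.ff_of_finite k (RatFunc k) (AdjoinRoot Φ) RatFunc.X).2,
    algebraMap (RatFunc k) _ RatFunc.X, AdjoinRoot.root Φ, hm, hm.natDegree_pos.2 ?_, hle, hc, ?_,
    fun G => ?_, ?_⟩
  · rintro rfl
    exact not_irreducible_one hi
  · exact (transcendental_algebraMap_iff (algebraMap (RatFunc k) (AdjoinRoot Φ)).injective).2
      RatFunc.transcendental_X
  · rw [he, AdjoinRoot.mk_eq_zero, map_dvd_map _ (IsFractionRing.injective k[X] (RatFunc k)) hm]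
  · refine eq_top_iff.2 fun z _ => ?_
    have h1 : ∀ c : k[X], algebraMap (RatFunc k) (AdjoinRoot Φ) (algebraMap k[X] (RatFunc k) c) ∈
        IntermediateField.adjoin k {algebraMap (RatFunc k) (AdjoinRoot Φ) RatFunc.X,
          AdjoinRoot.root Φ} := fun c => by
      rw [← hx]
      exact IntermediateField.algebra_adjoin_le_adjoin _ _ (Algebra.adjoin_mono (by simp)
        (aeval_mem_adjoin_singleton k _))
    induction z using AdjoinRoot.induction_on with
    | ih p =>
      induction p using Polynomial.induction_on' with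
      | add p q hp hq => rw [map_add]; exact add_mem (hp trivial) (hq trivial)
      | monomial i c =>
        rw [← C_mul_X_pow_eq_monomial, map_mul, map_pow, AdjoinRoot.mk_X, AdjoinRoot.mk_C]
        refine mul_mem ?_ (pow_mem (IntermediateField.subset_adjoin _ _ (by simp)) _)
        rw [← RatFunc.num_div_denom c, map_div₀]
        exact div_mem (h1 _) (h1 _)

end Pool.Agent.P.MP_ab3ecb_nt.Inv
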