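import Pool.Agent.P.MP_ab3ecb_nt.Inv.E.Iface
import Pool.Agent.P.MP_ab3ecb_nt.Inv.J.Iface

/-! Step MODEL of the twist project. -/

namespace Pool.Agent.P.MP_ab3ecb_nt.Inv

open WithZero Polynomial Module NumberField
open Pool.Agent.P.MP_6f117a_ag (Place FF Model Reg)
open scoped IntermediateField Classical Polynomial.Bivariate

theorem model_zero {k E : Type} [Field k] [Field E] [Algebra k E] (x y : E) (d : ℕ)
    (h : LinearIndependent k (fun p : ℕ × Fin d => x ^ p.1 * y ^ (p.2 : ℕ))) (G : k[X][Y])
    (hG : G.natDegree < d) (h0 : G.eval₂ (eval₂RingHom (algebraMap k E) x) y = 0) : G = 0 := by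
  obtain ⟨N, hN⟩ : ∃ N, ∀ b, (G.coeff b).natDegree < N := by
    refine ⟨(G.support.sup fun b => (G.coeff b).natDegree) + 1, fun b => ?_⟩
    by_cases hb : b ∈ G.support
    · exact Nat.lt_succ_of_le (Finset.le_sup (f := fun b => (G.coeff b).natDegree) hb)
    · rw [notMem_support_iff.1 hb]; simp
  have key := linearIndependent_iff'.1 h (Finset.range N ×ˢ Finset.univ)
    (fun p => (G.coeff p.2).coeff p.1) (by
      rw [← h0, eval₂_eq_sum_range' _ hG, Finset.sum_product_right,
        ← Fin.sum_univ_eq_sum_range (fun i => eval₂RingHom (algebraMap k E) x (G.coeff i) * y ^ i)]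
      refine Finset.sum_congr rfl fun b _ => ?_
      rw [coe_eval₂RingHom, eval₂_eq_sum_range' _ (hN b), Finset.sum_mul]
      refine Finset.sum_congr rfl fun a _ => ?_
      simp [Algebra.smul_def, mul_assoc])
  ext b a
  by_cases hb : b < d
  · by_cases ha : a < N
    · simpa using key (a, ⟨b, hb⟩) (by simpa using ha)
    · simpa using coeff_eq_zero_of_natDegree_lt ((hN b).trans_le (not_lt.1 ha))
  · rw [coeff_eq_zero_of_natDegree_lt (hG.trans_le (not_lt.1 hb))]; simp

theorem model_irr {k E : Type} [Field k] [Field E] [Algebra k E] (x y : E) (Ψ : k[X][Y])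
    (hm : Ψ.Monic) (d : ℕ) (hd : Ψ.natDegree = d)
    (h : LinearIndependent k (fun p : ℕ × Fin d => x ^ p.1 * y ^ (p.2 : ℕ)))
    (h0 : Ψ.eval₂ (eval₂RingHom (algebraMap k E) x) y = 0) : Irreducible Ψ := by
  refine hm.irreducible_iff_natDegree.2 ⟨?_, fun G H hG hH e => ?_⟩
  · rintro rfl
    simp at h0
  · have h1 := hG.natDegree_mul hH
    rw [e, hd] at h1
    rw [← e, eval₂_mul] at h0
    by_contra hc
    push Not at hc
    rcases mul_eq_zero.1 h0 with h2 | h2
    · exact hG.ne_zero (model_zero x y d h G (by omega) h2)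
    · exact hH.ne_zero (model_zero x y d h H (by omega) h2)

theorem model_sq {k Fb E : Type} [Field k] [Field Fb] [Algebra k Fb] [Field E] [Algebra k E]
    [Algebra Fb E] [IsScalarTower k Fb E] (x y : Fb) (d : ℕ) (hx : ¬ IsSquare x) (s : E)
    (hs : s ^ 2 = algebraMap Fb E x)
    (h : LinearIndependent k (fun p : ℕ × Fin d => x ^ p.1 * y ^ (p.2 : ℕ))) :
    LinearIndependent k (fun p : ℕ × Fin d => s ^ p.1 * algebraMap Fb E y ^ (p.2 : ℕ)) := by
  have h2 : LinearIndependent Fb ![(1 : E), s] := by
    refine (LinearIndependent.pair_iff' one_ne_zero).2 fun a ha => hx ⟨a, ?_⟩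
    apply (algebraMap Fb E).injective
    rw [← hs, ← ha, map_mul, Algebra.smul_def, mul_one, sq]
  have h3 := (linearIndependent_smul h h2).comp
    (fun p : ℕ × Fin d => ((p.1 / 2, p.2), (⟨p.1 % 2, Nat.mod_lt _ two_pos⟩ : Fin 2))) (by
      rintro ⟨a, b⟩ ⟨a', b'⟩ e
      simp only [Prod.mk.injEq, Fin.mk.injEq] at e ⊢
      exact ⟨by omega, e.1.2⟩)
  convert h3 using 1
  funext ⟨a, b⟩
  have h4 : s ^ a = algebraMap Fb E x ^ (a / 2) * s ^ (a % 2) := by
    rw [← hs, ← pow_mul, ← pow_add, Nat.div_add_mod]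
  have h5 : (![(1 : E), s] : Fin 2 → E) ⟨a % 2, Nat.mod_lt _ two_pos⟩ = s ^ (a % 2) := by
    rcases Nat.mod_two_eq_zero_or_one a with h6 | h6 <;> simp [h6]
  simp only [Function.comp_apply, h5, Algebra.smul_def, map_mul, map_pow, h4]
  ring

theorem model_main {A K F : Type} [CommRing A] [IsDomain A] [IsIntegrallyClosed A] [Field K]
    [CharZero K] [Algebra A K] [IsFractionRing A K] [Field F] [Algebra K F] (f : F)
    (hf : Transcendental K f) [FiniteDimensional K⟮f⟯ F] :
    ∃ (Φ : A[X][Y]) (w : F), Φ.Monic ∧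
      Φ.eval₂ (eval₂RingHom ((algebraMap K F).comp (algebraMap A K)) f) w = 0 ∧
      LinearIndependent K (fun p : ℕ × Fin Φ.natDegree => f ^ p.1 * w ^ (p.2 : ℕ)) ∧
      ∀ (L : Type) [Field L] (ρ : K →+* L) (t z : L), (∀ p : K[X], p.eval₂ ρ t = 0 → p = 0) →
        Φ.eval₂ (eval₂RingHom (ρ.comp (algebraMap A K)) t) z = 0 →
          ∃ φ : F →+* L, φ.comp (algebraMap K F) = ρ ∧ φ f = t := by
  set M := K⟮f⟯ with hM
  let g : M := IntermediateField.AdjoinSimple.gen K f
  have hg : algebraMap M F g = f := rfl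
  let _ : Algebra A[X] M := (eval₂RingHom ((algebraMap K M).comp (algebraMap A K)) g).toAlgebra
  let _ : Algebra A[X] F := (eval₂RingHom ((algebraMap K F).comp (algebraMap A K)) f).toAlgebra
  have eM : ∀ p : A[X], algebraMap A[X] M p = aeval g (p.map (algebraMap A K)) := fun p => by
    rw [aeval_def, eval₂_map]; rfl
  have eF : ∀ p : A[X], algebraMap A[X] F p = aeval f (p.map (algebraMap A K)) := fun p => by
    rw [aeval_def, eval₂_map]; rfl
  have _ : IsScalarTower A[X] M F := IsScalarTower.of_algebraMap_eq fun p => by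
    rw [eM, eF, ← aeval_algebraMap_apply, hg]
  have hinjA := IsFractionRing.injective A K
  have hinjF : Function.Injective (algebraMap A[X] F) := by
    refine (injective_iff_map_eq_zero _).2 fun p hp => ?_
    rw [eF] at hp
    exact (Polynomial.map_eq_zero_iff hinjA).1 (transcendental_iff.1 hf _ hp)
  have hinjM : Function.Injective (algebraMap A[X] M) := by
    refine Function.Injective.of_comp (f := algebraMap M F) ?_
    rw [← RingHom.coe_comp, ← IsScalarTower.algebraMap_eq]
    exact hinjF
  have _ : FaithfulSMul A[X] M := (faithfulSMul_iff_algebraMap_injective _ _).2 hinjM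
  have _ : IsFractionRing A[X] M := by
    refine IsFractionRing.of_field A[X] M fun z => ?_
    obtain ⟨r, s, hz⟩ := (IntermediateField.mem_adjoin_simple_iff K (z : F)).1 z.2
    obtain ⟨a, ha, har⟩ := IsLocalization.integerNormalization_spec (nonZeroDivisors A) r
    obtain ⟨b, hb, hbs⟩ := IsLocalization.integerNormalization_spec (nonZeroDivisors A) s
    refine ⟨C b * IsLocalization.integerNormalization (nonZeroDivisors A) r,
      C a * IsLocalization.integerNormalization (nonZeroDivisors A) s, ?_⟩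
    apply (algebraMap M F).injective
    have ha0 : algebraMap K F (algebraMap A K a) ≠ 0 := by
      rw [_root_.map_ne_zero, map_ne_zero_iff _ hinjA]; exact nonZeroDivisors.ne_zero ha
    have hb0 : algebraMap K F (algebraMap A K b) ≠ 0 := by
      rw [_root_.map_ne_zero, map_ne_zero_iff _ hinjA]; exact nonZeroDivisors.ne_zero hb
    rw [map_div₀, ← IsScalarTower.algebraMap_apply, ← IsScalarTower.algebraMap_apply, eF, eF,
      Polynomial.map_mul, Polynomial.map_mul, har, hbs, map_C, map_C, ← algebraMap_smul K a r,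
      ← algebraMap_smul K b s, map_mul, map_mul, aeval_C, aeval_C, map_smul, map_smul,
      Algebra.smul_def, Algebra.smul_def]
    change (z : F) = _
    rw [hz]
    by_cases h0 : aeval f s = 0
    · simp [h0]
    · field_simp
  have _ : CharZero M := algebraRat.charZero M
  obtain ⟨w0, hw0⟩ := Field.exists_primitive_element M F
  have hal : IsAlgebraic A[X] w0 :=
    (IsFractionRing.isAlgebraic_iff A[X] M F).2 (Algebra.IsAlgebraic.isAlgebraic w0)
  obtain ⟨c, hc0, hc⟩ := hal.exists_integral_multiple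
  set w := c • w0 with hw
  have hwM : IsIntegral M w := hc.tower_top
  have htop : Algebra.adjoin M {w} = ⊤ := by
    rw [eq_top_iff, ← IntermediateField.top_toSubalgebra, ← hw0,
      IntermediateField.adjoin_simple_toSubalgebra_of_isAlgebraic
        (Algebra.IsAlgebraic.isAlgebraic w0), Algebra.adjoin_le_iff, Set.singleton_subset_iff]
    have h1 : w0 = (algebraMap A[X] M c)⁻¹ • w := by
      rw [hw, ← algebraMap_smul M c w0, inv_smul_smul₀]
      exact (map_ne_zero_iff _ hinjM).2 hc0
    rw [h1]
    exact Subalgebra.smul_mem _ (Algebra.self_mem_adjoin_singleton M w) _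
  have hmin : minpoly M w = (minpoly A[X] w).map (algebraMap A[X] M) :=
    minpoly.isIntegrallyClosed_eq_field_fractions' M hc
  have hdeg : (minpoly M w).natDegree = (minpoly A[X] w).natDegree := by
    rw [hmin, (minpoly.monic hc).natDegree_map]
  refine ⟨minpoly A[X] w, w, minpoly.monic hc, minpoly.aeval A[X] w, ?_, ?_⟩
  · have h1 : LinearIndependent K fun a : ℕ => g ^ a := by
      have h2 := (basisMonomials K).linearIndependent.map' (aeval g).toLinearMap (by
        rw [LinearMap.ker_eq_bot']
        intro p hp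
        refine transcendental_iff.1 hf p ?_
        rw [← hg, aeval_algebraMap_apply]
        exact (congrArg (algebraMap M F) hp).trans (map_zero _))
      have e : (fun a : ℕ => g ^ a) = (aeval g).toLinearMap ∘ basisMonomials K := by
        funext a
        simp
      rw [e]
      exact h2
    have h3 := linearIndependent_pow (K := M) w
    rw [hdeg] at h3
    convert linearIndependent_smul h1 h3 using 1
    funext ⟨a, b⟩
    simp only [Algebra.smul_def, map_pow, hg]
  · intro L _ ρ t z ht hz
    have hi : Function.Injective (eval₂RingHom (ρ.comp (algebraMap A K)) t) := by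
      refine (injective_iff_map_eq_zero _).2 fun p hp => ?_
      refine (Polynomial.map_eq_zero_iff hinjA).1 (ht _ ?_)
      rw [eval₂_map]; exact hp
    let ψ : M →+* L := IsFractionRing.lift hi
    have hψ : ∀ p, ψ (algebraMap A[X] M p) = eval₂RingHom (ρ.comp (algebraMap A K)) t p :=
      fun p => IsFractionRing.lift_algebraMap hi p
    let _ : Algebra M L := ψ.toAlgebra
    let pb := PowerBasis.ofAdjoinEqTop hwM htop
    have hgen : pb.gen = w := PowerBasis.ofAdjoinEqTop_gen hwM htop
    have hz' : aeval z (minpoly M pb.gen) = 0 := by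
      rw [hgen, hmin, aeval_def, eval₂_map, ← hz]
      congr 1
      exact RingHom.ext hψ
    let φ := pb.lift z hz'
    have hφ : ∀ m : M, φ (algebraMap M F m) = ψ m := fun m => φ.commutes m
    refine ⟨φ.toRingHom, ?_, ?_⟩
    · refine IsLocalization.ringHom_ext (nonZeroDivisors A) (RingHom.ext fun a => ?_)
      have h1 := hψ (C a)
      rw [eM, map_C, aeval_C, ← hφ, ← IsScalarTower.algebraMap_apply] at h1
      simpa using h1
    · have h1 := hψ X
      rw [eM, map_X, aeval_X, ← hφ, hg] at h1
      simpa using h1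

theorem p_MODEL (hCEDEG : S_CEDEG) :
    S_MODEL := by
  intro K F k Fb _ _ _ _ _ _ _ _ _ j act h hFF f hf hsq
  have _ := hFF.fin f hf
  obtain ⟨Φ, w, hm, h0, hl, hL⟩ := model_main (A := 𝓞 K) f hf
  refine ⟨Φ, hm, ?_, hL⟩
  obtain ⟨s, hs⟩ := IsAlgClosed.exists_pow_nat_eq
    (algebraMap Fb (AlgebraicClosure Fb) (j f)) two_pos
  have h1 : LinearIndependent k
      (fun p : ℕ × Fin Φ.natDegree => j f ^ p.1 * j w ^ (p.2 : ℕ)) := by
    have h2 := h.lin _ _ hl
    have e : (fun p : ℕ × Fin Φ.natDegree => j f ^ p.1 * j w ^ (p.2 : ℕ)) =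
        j ∘ fun p : ℕ × Fin Φ.natDegree => f ^ p.1 * w ^ (p.2 : ℕ) := by
      funext p
      simp
    rw [e]
    exact h2
  refine model_irr s (algebraMap Fb (AlgebraicClosure Fb) (j w)) _ ((hm.map _).map _) Φ.natDegree
    (by rw [(hm.map _).natDegree_map, hm.natDegree_map]) (model_sq _ _ _ hsq s hs h1) ?_
  have h3 := congrArg ((algebraMap Fb (AlgebraicClosure Fb)).comp j) h0
  rw [hom_eval₂, map_zero] at h3
  rw [eval₂_map, eval₂_map, ← h3]
  congr 1
  refine Polynomial.ringHom_ext (fun a => ?_) ?_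
  · simp only [RingHom.comp_apply, AlgHom.toRingHom_eq_coe, RingHom.coe_coe, expand_C,
      coe_mapRingHom, map_C, coe_eval₂RingHom, eval₂_C, h.comm]
    exact IsScalarTower.algebraMap_apply k Fb _ _
  · simp [hs]

end Pool.Agent.P.MP_ab3ecb_nt.Inv
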