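import Pool.Agent.P.MP_ab3ecb_nt.Inv.E.Iface

/-! Step PT of the twist project. -/

namespace Pool.Agent.P.MP_ab3ecb_nt.Inv

open WithZero Polynomial Module NumberField
open Pool.Agent.P.MP_6f117a_ag (Place FF Model Reg)
open scoped IntermediateField Classical Polynomial.Bivariate

section mk

variable {A E L : Type} [CommRing A] [Field E] [Field L] (α : A →+* E) (ψ : A →+* L)

/-- The fractions with denominator outside the kernel of `ψ`. -/
def pt_sub : Subring E where
  carrier := {z | ∃ s t : A, ψ s ≠ 0 ∧ α s * z = α t}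
  one_mem' := ⟨1, 1, by simp, by simp⟩
  zero_mem' := ⟨1, 0, by simp, by simp⟩
  mul_mem' := by
    rintro x y ⟨s, t, hs, h⟩ ⟨s', t', hs', h'⟩
    refine ⟨s * s', t * t', by simp [hs, hs'], ?_⟩
    rw [map_mul, map_mul, ← h, ← h']; ring
  add_mem' := by
    rintro x y ⟨s, t, hs, h⟩ ⟨s', t', hs', h'⟩
    refine ⟨s * s', t * s' + s * t', by simp [hs, hs'], ?_⟩
    rw [map_add, map_mul, map_mul, map_mul, ← h, ← h']; ring
  neg_mem' := by
    rintro x ⟨s, t, hs, h⟩
    exact ⟨s, -t, hs, by rw [map_neg, ← h]; ring⟩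

theorem pt_wd (hk : ∀ x, α x = 0 → ψ x = 0) {z : E} {s t s' t' : A} (hs : ψ s ≠ 0)
    (h : α s * z = α t) (hs' : ψ s' ≠ 0) (h' : α s' * z = α t') :
    ψ t / ψ s = ψ t' / ψ s' := by
  have h0 : ψ (t * s' - s * t') = 0 := by
    apply hk
    rw [map_sub, map_mul, map_mul, ← h, ← h']; ring
  rw [map_sub, map_mul, map_mul, sub_eq_zero] at h0
  rw [div_eq_div_iff hs hs', h0]; ring

theorem pt_mk (hk : ∀ x, α x = 0 → ψ x = 0)
    (hv : ∀ z : E, ∃ s t : A, α s * z = α t ∧ (ψ s ≠ 0 ∨ ψ t ≠ 0)) :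
    ∃ (P : Pt E L) (h : ∀ a, α a ∈ P.O), ∀ a, P.φ ⟨α a, h a⟩ = ψ a := by
  let O : ValuationSubring E :=
    { pt_sub α ψ with
      mem_or_inv_mem' := by
        intro z
        obtain ⟨s, t, h, hs | ht⟩ := hv z
        · exact Or.inl ⟨s, t, hs, h⟩
        · right
          have hat : α t ≠ 0 := fun h0 => ht (hk t h0)
          have hz : z ≠ 0 := by
            rintro rfl
            exact hat (by rw [← h, mul_zero])
          refine ⟨t, s, ht, ?_⟩
          rw [← h, mul_assoc, mul_inv_cancel₀ hz, mul_one] }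
  have hO : ∀ z : O, ∃ s t : A, ψ s ≠ 0 ∧ α s * (z : E) = α t := fun z => z.2
  choose S T hS hT using hO
  have key : ∀ (z : O) (s t : A), ψ s ≠ 0 → α s * (z : E) = α t →
      ψ (T z) / ψ (S z) = ψ t / ψ s := fun z s t hs h => pt_wd α ψ hk (hS z) (hT z) hs h
  let φ : O →+* L :=
    { toFun := fun z => ψ (T z) / ψ (S z)
      map_one' := by
        rw [key 1 1 1 (by simp) (by simp)]; simp
      map_zero' := by
        rw [key 0 1 0 (by simp) (by simp)]; simp
      map_mul' := by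
        intro x y
        rw [key (x * y) (S x * S y) (T x * T y) (by simp [hS]) (by
          rw [map_mul, map_mul, ← hT, ← hT]; push_cast; ring), map_mul, map_mul]
        rw [div_mul_div_comm]
      map_add' := by
        intro x y
        rw [key (x + y) (S x * S y) (T x * S y + S x * T y) (by simp [hS]) (by
          rw [map_add, map_mul, map_mul, map_mul, ← hT, ← hT]; push_cast; ring), map_add, map_mul,
          map_mul, map_mul, div_add_div _ _ (hS x) (hS y)] }
  have hloc : IsLocalHom φ := by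
    refine ⟨fun z hz => ?_⟩
    have h1 : ψ (T z) / ψ (S z) ≠ 0 := hz.ne_zero
    have hT0 : ψ (T z) ≠ 0 := fun h0 => h1 (by rw [h0, zero_div])
    have hat : α (T z) ≠ 0 := fun h0 => hT0 (hk _ h0)
    have hz0 : (z : E) ≠ 0 := fun h0 => hat (by rw [← hT, h0, mul_zero])
    have hi : (z : E)⁻¹ ∈ O := ⟨T z, S z, hT0, by
      rw [← hT, mul_assoc, mul_inv_cancel₀ hz0, mul_one]⟩
    exact IsUnit.of_mul_eq_one ⟨_, hi⟩ (Subtype.ext (mul_inv_cancel₀ hz0))
  refine ⟨⟨O, φ, hloc⟩, fun a => ⟨1, a, by simp, by simp⟩, fun a => ?_⟩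
  change ψ (T _) / ψ (S _) = ψ a
  rw [key _ 1 a (by simp) (by simp)]; simp

end mk

/-- Evaluation of the quadratic algebra at a square root. -/
def pt_ev {R M : Type} [CommRing R] [CommRing M] (D : R) (g : R →+* M) (w : M)
    (hw : w ^ 2 = g D) : QuadraticAlgebra R D 0 →+* M where
  toFun x := g x.re + g x.im * w
  map_one' := by simp [QuadraticAlgebra.re_one, QuadraticAlgebra.im_one]
  map_zero' := by simp
  map_mul' x y := by
    simp only [QuadraticAlgebra.re_mul, QuadraticAlgebra.im_mul, map_add, map_mul, ← hw, map_zero]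
    ring
  map_add' x y := by
    simp only [QuadraticAlgebra.re_add, QuadraticAlgebra.im_add, map_add]
    ring

theorem pt_ev_apply {R M : Type} [CommRing R] [CommRing M] (D : R) (g : R →+* M) (w : M)
    (hw : w ^ 2 = g D) (x : QuadraticAlgebra R D 0) :
    pt_ev D g w hw x = g x.re + g x.im * w := rfl

theorem pt_prim {F : Type} [Field F] (O : ValuationSubring F) (a b : F) :
    ∃ (c : F) (a' b' : O), a = c * a' ∧ b = c * b' ∧ (a' = 1 ∨ b' = 1) := by
  by_cases hb : b = 0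
  · exact ⟨a, 1, 0, by simp, by simp [hb], Or.inl rfl⟩
  by_cases ha : a = 0
  · exact ⟨b, 0, 1, by simp [ha], by simp, Or.inr rfl⟩
  rcases O.mem_or_inv_mem (a / b) with h | h
  · exact ⟨b, ⟨_, h⟩, 1, by field_simp, by simp, Or.inr rfl⟩
  · exact ⟨a, 1, ⟨_, h⟩, by simp, by field_simp, Or.inl rfl⟩

theorem pt_ind {F E : Type} [Field F] [Field E] (j : F →+* E) (D : F) (hD : ¬ IsSquare D)
    (w : E) (hw : w ^ 2 = j D) {a b : F} (h : j a + j b * w = 0) : a = 0 ∧ b = 0 := by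
  have hb : b = 0 := by
    by_contra hb
    apply hD
    refine ⟨a / b, j.injective ?_⟩
    have hjb : j b ≠ 0 := (map_ne_zero j).2 hb
    have : j a = - (j b * w) := eq_neg_of_add_eq_zero_left h
    rw [map_mul, map_div₀, this, ← hw]
    field_simp
  refine ⟨?_, hb⟩
  rw [hb, map_zero, zero_mul, add_zero] at h
  exact (map_eq_zero j).1 h

theorem pt_span {F E : Type} [Field F] [Field E] (j : F →+* E) (D : F) (hD : ¬ IsSquare D)
    (w : E) (hw : w ^ 2 = j D) (y : E) (c : F) (hy : y = j c * w)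
    (htop : Subfield.closure (Set.range j ∪ {y}) = ⊤) (z : E) :
    ∃ a b : F, z = j a + j b * w := by
  have hz : z ∈ Subfield.closure (Set.range j ∪ {y}) := htop ▸ Subfield.mem_top z
  induction hz using Subfield.closure_induction with
  | mem x hx =>
    rcases hx with ⟨a, rfl⟩ | hx
    · exact ⟨a, 0, by simp⟩
    · exact ⟨0, c, by rw [Set.mem_singleton_iff.1 hx, hy]; simp⟩
  | one => exact ⟨1, 0, by simp⟩
  | add x y _ _ hx hy =>
    obtain ⟨a, b, rfl⟩ := hx
    obtain ⟨a', b', rfl⟩ := hy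
    exact ⟨a + a', b + b', by rw [map_add, map_add]; ring⟩
  | neg x _ hx =>
    obtain ⟨a, b, rfl⟩ := hx
    exact ⟨-a, -b, by rw [map_neg, map_neg]; ring⟩
  | inv x _ hx =>
    obtain ⟨a, b, rfl⟩ := hx
    by_cases h0 : j a + j b * w = 0
    · exact ⟨0, 0, by rw [h0]; simp⟩
    have h1 : j a + j (-b) * w ≠ 0 := by
      intro h1
      obtain ⟨ha, hb⟩ := pt_ind j D hD w hw h1
      apply h0
      rw [ha, neg_eq_zero.1 hb]; simp
    have hN : j (a ^ 2 - D * b ^ 2) = (j a + j b * w) * (j a + j (-b) * w) := by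
      rw [map_sub, map_mul, map_pow, map_pow, map_neg, ← hw]; ring
    refine ⟨a / (a ^ 2 - D * b ^ 2), -b / (a ^ 2 - D * b ^ 2), ?_⟩
    rw [map_div₀, map_div₀, hN, div_mul_eq_mul_div, ← add_div, eq_div_iff (mul_ne_zero h0 h1),
      ← mul_assoc, inv_mul_cancel₀ h0, one_mul]
  | mul x y _ _ hx hy =>
    obtain ⟨a, b, rfl⟩ := hx
    obtain ⟨a', b', rfl⟩ := hy
    refine ⟨a * a' + D * (b * b'), a * b' + b * a', ?_⟩
    simp only [map_add, map_mul, ← hw]; ring

theorem pt_lift {F E L : Type} [Field F] [Field E] [Field L] (j : F →+* E) (P : Pt F L)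
    (D : P.O) (w : E) (hw : w ^ 2 = j D) (r : L) (hr : r ^ 2 = P.φ D) (hr0 : r ≠ 0)
    (h2 : (2 : L) ≠ 0) (y : E) (c : F) (hy : y = j c * w)
    (htop : Subfield.closure (Set.range j ∪ {y}) = ⊤) :
    ∃ (Q : Pt E L) (h : ∀ a : P.O, j a ∈ Q.O), ∀ a : P.O, Q.φ ⟨j a, h a⟩ = P.φ a := by
  let g : P.O →+* E := j.comp P.O.subtype
  have hg : ∀ a : P.O, g a = j a := fun a => rfl
  by_cases hD : IsSquare (D : F)
  · refine pt_mk g P.φ (fun x hx => ?_) (fun z => ?_)
    · have : x = 0 := Subtype.ext ((map_eq_zero j).1 hx)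
      rw [this, map_zero]
    · obtain ⟨t, ht⟩ := hD
      have hle : Subfield.closure (Set.range j ∪ {y}) ≤ j.fieldRange := by
        rw [Subfield.closure_le]
        rintro x (hx | hx)
        · exact hx
        · have h3 : w ^ 2 = j t ^ 2 := by rw [hw, ht, map_mul, sq]
          rw [Set.mem_singleton_iff.1 hx, hy]
          rcases sq_eq_sq_iff_eq_or_eq_neg.1 h3 with h4 | h4
          · exact ⟨c * t, by rw [map_mul, h4]⟩
          · exact ⟨c * -t, by rw [map_mul, map_neg, h4]⟩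
      obtain ⟨a, rfl⟩ : z ∈ j.fieldRange := hle (htop ▸ Subfield.mem_top z)
      by_cases ha : a ∈ P.O
      · exact ⟨1, ⟨a, ha⟩, by simp [hg], Or.inl (by simp)⟩
      · have ha0 : a ≠ 0 := fun h0 => ha (h0 ▸ P.O.zero_mem)
        refine ⟨⟨a⁻¹, (P.O.mem_or_inv_mem a).resolve_left ha⟩, 1, ?_, Or.inr (by simp)⟩
        rw [hg, ← map_mul, inv_mul_cancel₀ ha0, map_one, map_one]
  · have hw' : w ^ 2 = g D := hw
    obtain ⟨Q, h, hQ⟩ := pt_mk (pt_ev D g w hw') (pt_ev D P.φ r hr) (fun x hx => by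
      obtain ⟨h1, h2⟩ := pt_ind j D hD w hw hx
      have h1' : x.re = 0 := Subtype.ext h1
      have h2' : x.im = 0 := Subtype.ext h2
      rw [pt_ev_apply, h1', h2']; simp) (fun z => by
      obtain ⟨a, b, rfl⟩ := pt_span j D hD w hw y c hy htop z
      obtain ⟨e, a', b', rfl, rfl, hab⟩ := pt_prim P.O a b
      by_cases h1 : P.φ a' + P.φ b' * r = 0
      · have h3 : P.φ a' + P.φ (-b') * r ≠ 0 := by
          intro h3
          rw [map_neg] at h3
          have ha : P.φ a' = 0 := by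
            apply mul_left_cancel₀ h2
            linear_combination h1 + h3
          have hb : P.φ b' = 0 := by
            apply mul_right_cancel₀ hr0
            apply mul_left_cancel₀ h2
            linear_combination h1 - h3
          rcases hab with rfl | rfl
          · simp at ha
          · simp at hb
        have hN : (j a' + j (-b' : P.O) * w) * (j (e * a') + j (e * b') * w) =
            j (e * (a' ^ 2 - D * b' ^ 2)) := by
          simp only [map_mul, map_sub, map_pow, ← hw]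
          push_cast
          rw [map_neg]; ring
        by_cases hm : e * (a' ^ 2 - D * b' ^ 2) ∈ P.O
        · refine ⟨⟨a', -b'⟩, ⟨⟨_, hm⟩, 0⟩, ?_, Or.inl h3⟩
          rw [pt_ev_apply, pt_ev_apply, hg, hg, hN, hg]; simp
        · have hm0 : e * (a' ^ 2 - D * b' ^ 2) ≠ 0 := fun h0 => hm (h0 ▸ P.O.zero_mem)
          refine ⟨⟨⟨_, (P.O.mem_or_inv_mem _).resolve_left hm⟩, 0⟩ * ⟨a', -b'⟩, 1, ?_,
            Or.inr (by simp)⟩
          rw [map_mul, pt_ev_apply, pt_ev_apply, hg, hg, hg, hg, mul_assoc, hN, map_one]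
          simp only [ZeroMemClass.coe_zero, map_zero, zero_mul, add_zero]
          rw [← map_mul, inv_mul_cancel₀ hm0, map_one]
      · by_cases hm : e ∈ P.O
        · refine ⟨1, ⟨⟨e, hm⟩ * a', ⟨e, hm⟩ * b'⟩, ?_, Or.inl (by simp)⟩
          rw [map_one, one_mul, pt_ev_apply, hg, hg]; rfl
        · have hm0 : e ≠ 0 := fun h0 => hm (h0 ▸ P.O.zero_mem)
          refine ⟨⟨⟨_, (P.O.mem_or_inv_mem _).resolve_left hm⟩, 0⟩, ⟨a', b'⟩, ?_, Or.inr h1⟩
          have hje : j e ≠ 0 := (map_ne_zero j).2 hm0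
          rw [pt_ev_apply, pt_ev_apply, hg, hg, hg, hg]
          simp only [ZeroMemClass.coe_zero, map_zero, zero_mul, add_zero, map_mul, map_inv₀]
          field_simp)
    have he : ∀ a : P.O, pt_ev D g w hw' ⟨a, 0⟩ = j a := fun a => by
      rw [pt_ev_apply]; simp [hg]
    refine ⟨Q, fun a => he a ▸ h ⟨a, 0⟩, fun a => ?_⟩
    have := hQ ⟨a, 0⟩
    rw [pt_ev_apply D P.φ] at this
    simp only [map_zero, zero_mul, add_zero] at this
    rw [← this]
    congr 1
    exact Subtype.ext (he a).symm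

theorem p_PT (hPTA : S_PTA) :
    S_PT := by
  intro K F E L _ _ _ _ _ ι ρ f d j y hf hd htw
  obtain ⟨h1, h2⟩ := hPTA K F E L ι ρ f d j y hf hd htw
  refine ⟨h1, ?_⟩
  rintro ⟨P, hP | ⟨u, hu, ⟨s, hs⟩, ⟨r, hr⟩⟩⟩
  · exact h2 P hP
  obtain ⟨hy, htop⟩ := htw
  have hu0 : (u : F) ≠ 0 := fun h0 => hu.ne_zero (Subtype.ext h0)
  have hid : ι d ≠ 0 := (map_ne_zero ι).2 hd
  have hy0 : y ≠ 0 := by
    rintro rfl
    apply (map_ne_zero j).2 hf
    rw [← hy]; simp
  have hs0 : s ≠ 0 := by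
    rintro rfl
    exact mul_ne_zero hf hu0 (by rw [hs]; simp)
  have hjs : j s ≠ 0 := (map_ne_zero j).2 hs0
  have hjd : j (ι d) ≠ 0 := (map_ne_zero j).2 hid
  have hju : j u ≠ 0 := (map_ne_zero j).2 hu0
  have hss : j s * j s = j (ι d) * y ^ 2 * j u := by rw [hy, ← map_mul, ← map_mul, hs]
  let D : P.O := ⟨ι d, P.mem d⟩ * u
  have hw : (j s / y) ^ 2 = j D := by
    change _ = j (ι d * u)
    rw [div_pow, sq (j s), hss, map_mul]
    field_simp
  have hφ : r ^ 2 = P.φ D := by rw [map_mul, P.comm, hr, sq]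
  have hr0 : r ≠ 0 := by
    rintro rfl
    exact mul_ne_zero ((map_ne_zero ρ).2 hd) (hu.map P.φ).ne_zero (by rw [hr]; simp)
  have h2L : (2 : L) ≠ 0 := by
    have : ρ 2 ≠ 0 := (map_ne_zero ρ).2 two_ne_zero
    rwa [map_ofNat] at this
  obtain ⟨Q, h, hQ⟩ := pt_lift j P.toPt D (j s / y) hw r hφ hr0 h2L y (s / (ι d * u)) (by
    rw [map_div₀, map_mul, div_mul_div_comm, hss]
    field_simp) htop
  exact ⟨⟨Q, fun c => h ⟨ι c, P.mem c⟩, fun c => (hQ ⟨ι c, P.mem c⟩).trans (P.comm c)⟩⟩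

end Pool.Agent.P.MP_ab3ecb_nt.Inv
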