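import Pool.Agent.P.MP_ab3ecb_nt.Inv.E.Iface

/-! Step PTA of the twist project. -/

namespace Pool.Agent.P.MP_ab3ecb_nt.Inv

open WithZero Polynomial Module NumberField
open Pool.Agent.P.MP_6f117a_ag (Place FF Model Reg)
open scoped IntermediateField Classical Polynomial.Bivariate

lemma pta_unit {F : Type} [Field F] (O : ValuationSubring F) (u : O) :
    IsUnit u ↔ (u : F) ≠ 0 ∧ (u : F)⁻¹ ∈ O := by
  constructor
  · rintro ⟨w, rfl⟩
    have h : ((w : O) : F) * ((w⁻¹ : Oˣ) : O) = 1 := by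
      rw [← MulMemClass.coe_mul, Units.mul_inv]; rfl
    refine ⟨left_ne_zero_of_mul_eq_one h, ?_⟩
    rw [inv_eq_of_mul_eq_one_right h]
    exact SetLike.coe_mem _
  · rintro ⟨h0, h1⟩
    exact IsUnit.of_mul_eq_one ⟨_, h1⟩ (Subtype.ext (mul_inv_cancel₀ h0))

lemma pta_one {K F E L : Type} [Field K] [Field F] [Field E] [Field L] (ι : K →+* F)
    (ρ : K →+* L) (f : F) (d : K) (j : F →+* E) (y : E) (hf : f ≠ 0) (hd : d ≠ 0)
    (h : IsTw f (ι d) j y) (Q : KPt (j.comp ι) ρ) : ∃ P : KPt ι ρ, Lifts f d P := by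
  let O : ValuationSubring F := Q.O.comap j
  let r : O →+* Q.O := (j.comp O.subtype).codRestrict Q.O fun a => a.2
  have hr : ∀ a : O, ((r a : Q.O) : E) = j a := fun a => rfl
  have hloc : ∀ a : O, IsUnit (r a) → IsUnit a := fun a ha => by
    rw [pta_unit] at ha ⊢
    rw [hr] at ha
    refine ⟨fun h0 => ha.1 (by rw [h0, map_zero]), ?_⟩
    show j (a : F)⁻¹ ∈ Q.O
    rw [map_inv₀]
    exact ha.2
  have := Q.loc
  refine ⟨⟨⟨O, Q.φ.comp r, ⟨fun a ha => hloc a (IsLocalHom.map_nonunit (f := Q.φ) _ ha)⟩⟩,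
    fun c => Q.mem c, fun c => Q.comm c⟩, ?_⟩
  by_cases hb : Branch f O
  · exact Or.inl hb
  right
  obtain ⟨u, hu, s, hs⟩ := not_not.mp hb
  refine ⟨u, hu, ⟨s, hs⟩, ?_⟩
  have hdF : j (ι d) ≠ 0 := by simpa using hd
  have hy : y ≠ 0 := by
    rintro rfl
    have := h.1
    simp only [ne_eq, OfNat.ofNat_ne_zero, not_false_eq_true, zero_pow, mul_zero] at this
    exact hf (j.injective (by rw [← this, map_zero]))
  have e : (j s / y) * (j s / y) = j (ι d) * j u := by
    have h1 := congrArg j hs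
    rw [map_mul, map_mul, ← h.1] at h1
    field_simp
    linear_combination -h1
  have hm : j s / y ∈ Q.O := by
    rw [← Q.O.valuation_le_one_iff]
    have h2 : Q.O.valuation (j (ι d) * j u) ≤ 1 :=
      (Q.O.valuation_le_one_iff _).mpr (mul_mem (Q.mem d) u.2)
    rw [← e, map_mul] at h2
    by_contra h3
    exact absurd h2 (not_le.mpr (one_lt_mul_of_lt_of_le' (not_le.mp h3) (not_le.mp h3).le))
  refine ⟨Q.φ ⟨_, hm⟩, ?_⟩
  rw [← map_mul, ← Q.comm d]
  show _ * Q.φ (r u) = _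
  rw [← map_mul]
  congr 1
  exact Subtype.ext e.symm

lemma pta_rep {F E : Type} [Field F] [Field E] (g : F) (j : F →+* E) (y : E) (hy : y ^ 2 = j g)
    (hg : ¬ IsSquare g) (h : Subfield.closure (Set.range j ∪ {y}) = ⊤) (z : E) :
    ∃ a b : F, z = j a + j b * y := by
  have hz : z ∈ Subfield.closure (Set.range j ∪ {y}) := h ▸ Subfield.mem_top z
  induction hz using Subfield.closure_induction with
  | mem z hz =>
    rcases hz with ⟨a, rfl⟩ | rfl
    · exact ⟨a, 0, by simp⟩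
    · exact ⟨0, 1, by simp⟩
  | one => exact ⟨1, 0, by simp⟩
  | add z w _ _ hz hw =>
    obtain ⟨a, b, rfl⟩ := hz
    obtain ⟨c, e, rfl⟩ := hw
    exact ⟨a + c, b + e, by simp only [map_add]; ring⟩
  | neg z _ hz =>
    obtain ⟨a, b, rfl⟩ := hz
    exact ⟨-a, -b, by simp only [map_neg]; ring⟩
  | mul z w _ _ hz hw =>
    obtain ⟨a, b, rfl⟩ := hz
    obtain ⟨c, e, rfl⟩ := hw
    exact ⟨a * c + b * e * g, a * e + b * c, by
      simp only [map_add, map_mul]; linear_combination (j b * j e) * hy⟩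
  | inv z _ hz =>
    obtain ⟨a, b, rfl⟩ := hz
    by_cases hb : b = 0
    · exact ⟨a⁻¹, 0, by simp [hb]⟩
    have hN : a ^ 2 - b ^ 2 * g ≠ 0 := fun h0 =>
      hg ⟨a / b, by field_simp; linear_combination -h0⟩
    have hN' : j (a ^ 2 - b ^ 2 * g) ≠ 0 := (map_ne_zero j).mpr hN
    refine ⟨a / (a ^ 2 - b ^ 2 * g), -b / (a ^ 2 - b ^ 2 * g), ?_⟩
    apply inv_eq_of_mul_eq_one_right
    rw [map_div₀, map_div₀]
    field_simp
    simp only [map_sub, map_mul, map_pow, map_neg]
    linear_combination (-(j b) ^ 2) * hy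

lemma pta_two {K F E L : Type} [Field K] [Field F] [Field E] [Field L] (ι : K →+* F)
    (ρ : K →+* L) (f : F) (d : K) (j : F →+* E) (y : E) (hd : d ≠ 0)
    (h : IsTw f (ι d) j y) (P : KPt ι ρ) (hb : Branch f P.O) :
    Nonempty (KPt (j.comp ι) ρ) := by
  have hdF : ι d ≠ 0 := by simpa using hd
  have hy : y ^ 2 = j (f / ι d) := by
    have : j (ι d) ≠ 0 := by simpa using hd
    rw [map_div₀, ← h.1]
    field_simp
  have key : ∀ t : F, t ≠ 0 → t ^ 2 * (f / ι d) ≠ 0 → t ^ 2 * (f / ι d) ∈ P.O →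
      (t ^ 2 * (f / ι d))⁻¹ ∈ P.O → False := fun t ht h0 h1 h2 => by
    refine hb ⟨⟨(t ^ 2 * (f / ι d))⁻¹ * ι d⁻¹, mul_mem h2 (P.mem _)⟩, ?_, t⁻¹, ?_⟩
    · rw [pta_unit]
      refine ⟨mul_ne_zero (inv_ne_zero h0) (by simpa using hd), ?_⟩
      show ((t ^ 2 * (f / ι d))⁻¹ * ι d⁻¹)⁻¹ ∈ P.O
      rw [mul_inv, inv_inv, map_inv₀, inv_inv]
      exact mul_mem h1 (P.mem _)
    · have hf : f ≠ 0 := by
        rintro rfl
        simp at h0
      show f * ((t ^ 2 * (f / ι d))⁻¹ * ι d⁻¹) = _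
      rw [map_inv₀]
      field_simp
  have hf : f ≠ 0 := by
    rintro rfl
    exact hb ⟨1, isUnit_one, 0, by simp⟩
  have hg : ¬ IsSquare (f / ι d) := by
    rintro ⟨s, hs⟩
    have hs0 : s ≠ 0 := by
      rintro rfl
      exact div_ne_zero hf hdF (by simpa using hs)
    have e : s⁻¹ ^ 2 * (f / ι d) = 1 := by rw [hs]; field_simp
    exact key s⁻¹ (inv_ne_zero hs0) (by rw [e]; exact one_ne_zero) (by rw [e]; exact one_mem _)
      (by rw [e, inv_one]; exact one_mem _)
  obtain ⟨A, hA, hloc⟩ := IsLocalRing.exists_factor_valuationRing (j.comp P.O.subtype)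
  let r : P.O →+* A := (j.comp P.O.subtype).codRestrict A hA
  have hrl : IsLocalHom r := ⟨fun a ha => hloc.map_nonunit a ha⟩
  have hback : ∀ a : F, j a ∈ A → a ∈ P.O := fun a ha => by
    by_contra hn
    have ha0 : a ≠ 0 := by
      rintro rfl
      exact hn (zero_mem _)
    have h1 : a⁻¹ ∈ P.O := (P.O.mem_or_inv_mem a).resolve_left hn
    have h2 : IsUnit (r ⟨a⁻¹, h1⟩) := by
      rw [pta_unit]
      refine ⟨?_, ?_⟩
      · show j a⁻¹ ≠ 0
        simpa using ha0
      · show (j a⁻¹)⁻¹ ∈ A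
        rwa [map_inv₀, inv_inv]
    have h3 := ((pta_unit _ _).mp (hrl.map_nonunit _ h2)).2
    exact hn (by simpa using h3)
  have hne : ∀ t : F, A.valuation (j t * y) ≠ 1 := fun t h1 => by
    have ht : t ≠ 0 := by
      rintro rfl
      simp at h1
    have e : j (t ^ 2 * (f / ι d)) = (j t * y) ^ 2 := by rw [map_mul, map_pow, ← hy]; ring
    have h2 : A.valuation (j (t ^ 2 * (f / ι d))) = 1 := by rw [e, map_pow, h1, one_pow]
    refine key t ht (mul_ne_zero (pow_ne_zero _ ht) (div_ne_zero hf hdF))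
      (hback _ ((A.valuation_le_one_iff _).mp h2.le)) (hback _ ?_)
    rw [← A.valuation_le_one_iff, map_inv₀, map_inv₀, h2, inv_one]
  have hsur : Function.Surjective (IsLocalRing.ResidueField.map r) := fun q => by
    obtain ⟨z, rfl⟩ := IsLocalRing.residue_surjective q
    obtain ⟨a, b, hz⟩ := pta_rep _ j y hy hg h.2 (z : E)
    have hz1 : A.valuation (j a + j b * y) ≤ 1 := by
      rw [← hz]; exact A.valuation_le_one z
    have hb1 : A.valuation (j b * y) < 1 := by
      refine lt_of_le_of_ne ?_ (hne b)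
      by_contra hlt
      rw [not_le] at hlt
      by_cases ha : a = 0
      · rw [ha, map_zero, zero_add] at hz1
        exact absurd hz1 (not_le.mpr hlt)
      have ha' : A.valuation (j a) ≠ 0 := by simpa using ha
      have hd2 : A.valuation (j a) ≠ A.valuation (j b * y) := fun e => by
        refine hne (b / a) ?_
        rw [map_div₀, div_mul_eq_mul_div, map_div₀, ← e, div_self ha']
      rw [Valuation.map_add_of_distinct_val _ hd2] at hz1
      exact absurd (le_trans (le_max_right _ _) hz1) (not_le.mpr hlt)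
    have hja : j a ∈ A := by
      have : j a = (z : E) - j b * y := by rw [hz]; ring
      rw [this]
      exact sub_mem z.2 ((A.valuation_le_one_iff _).mp hb1.le)
    refine ⟨IsLocalRing.residue _ ⟨a, hback a hja⟩, ?_⟩
    rw [IsLocalRing.ResidueField.map_residue, eq_comm, ← sub_eq_zero, ← map_sub,
      IsLocalRing.residue_eq_zero_iff, ← A.coe_mem_nonunits_iff, A.mem_nonunits_iff]
    have : ((z - r ⟨a, hback a hja⟩ : A) : E) = j b * y := by
      show (z : E) - j a = _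
      rw [hz]; ring
    rwa [this]
  let e := RingEquiv.ofBijective (IsLocalRing.ResidueField.map r)
    ⟨(IsLocalRing.ResidueField.map r).injective, hsur⟩
  have := P.loc
  let ψ : A →+* L := ((IsLocalRing.ResidueField.lift P.φ).comp e.symm.toRingHom).comp
    (IsLocalRing.residue A)
  refine ⟨⟨⟨A, ψ, ⟨fun a ha => ?_⟩⟩, fun c => hA ⟨ι c, P.mem c⟩, fun c => ?_⟩⟩
  · by_contra hn
    have : IsLocalRing.residue A a = 0 := (IsLocalRing.residue_eq_zero_iff _).mpr hn
    exact ha.ne_zero (by simp [ψ, this])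
  · have h1 : IsLocalRing.residue A (r ⟨ι c, P.mem c⟩) =
        e (IsLocalRing.residue _ ⟨ι c, P.mem c⟩) := (IsLocalRing.ResidueField.map_residue r _).symm
    show IsLocalRing.ResidueField.lift P.φ (e.symm (IsLocalRing.residue A (r ⟨ι c, P.mem c⟩))) = _
    rw [h1, RingEquiv.symm_apply_apply, IsLocalRing.ResidueField.lift_residue_apply, P.comm]

theorem p_PTA :
    S_PTA := by
  intro K F E L _ _ _ _ ι ρ f d j y hf hd h
  exact ⟨fun ⟨Q⟩ => pta_one ι ρ f d j y hf hd h Q, fun P hb => pta_two ι ρ f d j y hd h P hb⟩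

end Pool.Agent.P.MP_ab3ecb_nt.Inv
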