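import Pool.Agent.P.MP_ab3ecb_nt.Inv.E.Iface

/-! Step TW of the twist project. -/

namespace Pool.Agent.P.MP_ab3ecb_nt.Inv

open WithZero Polynomial Module NumberField
open Pool.Agent.P.MP_6f117a_ag (Place FF Model Reg)
open scoped IntermediateField Classical Polynomial.Bivariate

theorem p_TW :
    S_TW := by
  intro F _ _ f d hd
  obtain ⟨y, hy⟩ := IsAlgClosed.exists_pow_nat_eq (algebraMap F (AlgebraicClosure F) (f / d))
    (n := 2) two_pos
  refine ⟨F⟮y⟯, inferInstance, inferInstance, algebraMap F F⟮y⟯,
    IntermediateField.AdjoinSimple.gen F y, ?_, ?_⟩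
  · apply Subtype.ext
    change algebraMap F (AlgebraicClosure F) d * y ^ 2 = algebraMap F (AlgebraicClosure F) f
    rw [hy, ← map_mul, mul_div_cancel₀ _ hd]
  · rw [eq_top_iff]
    rintro ⟨z, hz⟩ -
    induction hz using IntermediateField.adjoin_induction with
    | mem x hx =>
      obtain rfl : x = y := hx
      exact Subfield.subset_closure (Or.inr rfl)
    | algebraMap x => exact Subfield.subset_closure (Or.inl ⟨x, rfl⟩)
    | add x x' hx hx' h1 h2 => exact add_mem h1 h2
    | inv x hx h1 => exact inv_mem h1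
    | mul x x' hx hx' h1 h2 => exact mul_mem h1 h2

end Pool.Agent.P.MP_ab3ecb_nt.Inv
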