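import Pool.Agent.P.MP_ab3ecb_nt.Inv.BaseJ

/-!
Statements: local points.
-/

namespace Pool.Agent.P.MP_ab3ecb_nt.Inv

open WithZero Polynomial Module NumberField
open Pool.Agent.P.MP_6f117a_ag (Place FF Model Reg)
open scoped IntermediateField Classical Polynomial.Bivariate

-- deps:
def S_TW : Prop := ∀ (F : Type) [Field F] [CharZero F] (f d : F), d ≠ 0 →
  ∃ (E : Type) (_ : Field E) (_ : CharZero E) (j : F →+* E) (y : E), IsTw f d j y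

-- deps:
def S_PTA : Prop := ∀ (K F E L : Type) [Field K] [Field F] [Field E] [Field L] (ι : K →+* F)
  (ρ : K →+* L) (f : F) (d : K) (j : F →+* E) (y : E), f ≠ 0 → d ≠ 0 → IsTw f (ι d) j y →
  (Nonempty (KPt (j.comp ι) ρ) → ∃ P : KPt ι ρ, Lifts f d P) ∧
    ∀ P : KPt ι ρ, Branch f P.O → Nonempty (KPt (j.comp ι) ρ)

-- deps: PTA
def S_PT : Prop := ∀ (K F E L : Type) [Field K] [CharZero K] [Field F] [Field E] [Field L]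
  (ι : K →+* F) (ρ : K →+* L) (f : F) (d : K) (j : F →+* E) (y : E), f ≠ 0 → d ≠ 0 →
  IsTw f (ι d) j y → (Nonempty (KPt (j.comp ι) ρ) ↔ ∃ P : KPt ι ρ, Lifts f d P)

-- deps: PT TW TAME PADIC
def S_ELS : Prop := ∀ (K F : Type) [Field K] [NumberField K] [Field F] (ι : K →+* F) (f : F)
  (Pz : ℤ[X]) (F0 F1 : (𝓞 K)[X]) (M : ℕ) (d0 : K), f ≠ 0 → Pol Pz F0 F1 M →
  BRP ι f (F0.map (algebraMap (𝓞 K) K)) → GoodM ι f M → d0 ≠ 0 →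
  (∀ v, Od v d0 → (M : 𝓞 K) ∈ v.asIdeal) → ELS ι f d0 → ∀ α : 𝓞 K, α ≠ 0 → Bad M α →
  (∀ v : Pl K, (M : 𝓞 K) ∉ v.asIdeal → Od v (α : K) → ∃ z, Rt F0 M z ∧ z.pl = v) →
    ELS ι f (d0 * α)

-- deps:
def S_LWA : Prop := ∀ (k : Type) [Field k] (Ψ : k[X][Y]) (n : ℕ), Ψ.Monic → Irreducible Ψ →
  Ψ.natDegree ≤ n → (∀ i, (Ψ.coeff i).natDegree ≤ n) →
  ∃ (E : Type) (_ : Field E) (_ : Algebra k E) (_ : FF k E) (x y : E), Pc Ψ n x y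

-- deps:
def S_LWB : Prop := ∀ (k E : Type) [Field k] [IsAlgClosed k] [Field E] [Algebra k E] [FF k E]
  (Ψ : k[X][Y]) (n : ℕ) (x y : E), Pc Ψ n x y →
  (∃ D : Dv k E, 0 ≤ D ∧ deg D = Ψ.natDegree ∧ (∀ s : ℕ, Wt k n x y s ≤ LS (s • D)) ∧
    ∀ P a b, Ctr x y P a b → D P = 0) ∧
  (∀ a b, Ψ.evalEval a b = 0 → ∃ P : Place k E, Ctr x y P a b) ∧
  (∀ (a : k) (G : k[X][Y]) (P : Place k E) b, Ctr x y P a b →
    P.v (aevalAeval x y G) ≤ 1 ∧ ev P (aevalAeval x y G) = G.evalEval a b) ∧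
  ∀ a, (Ψ.map (evalRingHom a)).Separable → ∀ (P : Place k E) b, Ctr x y P a b →
    ord P (x - algebraMap k E a) = 1

-- deps:
def S_LWC : Prop := ∀ (k E : Type) [Field k] [IsAlgClosed k] [Field E] [Algebra k E] [FF k E]
  (Ψ : k[X][Y]) (n : ℕ) (x y : E), Pc Ψ n x y → ∃ δ : E →ₗ[k] E,
    (∀ u ∈ Algebra.adjoin k {x, y}, ∀ w ∈ Algebra.adjoin k {x, y},
      δ (u * w) = u * δ w + w * δ u) ∧
    (∀ s, ∀ u ∈ Wt k n x y s, δ u ∈ Wt k n x y (s + n * n + n)) ∧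
    δ x = aevalAeval x y (derivative Ψ) ∧
    ∀ (P : Place k E) a b, Ctr x y P a b → (derivative Ψ).evalEval a b ≠ 0 →
      ord P (x - algebraMap k E a) = 1 → ∀ m : ℕ, (∀ t : ℕ, 0 < t → t < m → (t : k) ≠ 0) →
      ∀ u ∈ Algebra.adjoin k {x, y}, (∀ t < m, P.v ((δ ^ t) u) < 1) → P.v u ≤ exp (-(m : ℤ))

-- deps: RR
def S_LWD : Prop := ∀ (k E : Type) [Field k] [IsAlgClosed k] [Field E] [Algebra k E] [FF k E]
  (p e : ℕ) [Fact p.Prime] [CharP k p] (D : Dv k E), (∃ t : E, Transcendental k t) →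
  deg D < (p ^ e : ℕ) → ∀ (ι : Type) [Fintype ι] (a b : ι → E), (∀ i, a i ∈ LS D) →
  LinearIndependent k b → ∑ i, a i * b i ^ p ^ e = 0 → ∀ i, a i = 0

-- deps: RR LWB LWC LWD
def S_LWE : Prop := ∀ n : ℕ, ∃ p0 : ℕ, ∀ (k E : Type) [Field k] [IsAlgClosed k] [Field E]
  [Algebra k E] [FF k E] (p e : ℕ) [Fact p.Prime] [CharP k p] (Ψ : k[X][Y]) (x y : E),
  p0 < p → e ≠ 0 → Pc Ψ n x y → ∀ Z : Finset (k × k), (∀ z ∈ Z, z.1 ^ p ^ e = z.1 ∧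
    (Ψ.map (evalRingHom z.1)).Separable ∧ Ψ.evalEval z.1 z.2 = 0 ∧
    Ψ.evalEval z.1 (z.2 ^ p ^ e) = 0 ∧ z.2 ^ p ^ e ≠ z.2) →
  2 * Z.card + p ^ e ≤ 2 * Ψ.natDegree * p ^ e

-- deps: LWA LWB LWE
def S_LW : Prop := ∀ n : ℕ, ∃ p0 : ℕ, ∀ (κ : Type) [Field κ] [Finite κ] (Ψ : κ[X][Y]),
  p0 < ringChar κ → Ψ.Monic → Ψ.natDegree ≤ n → (∀ i, (Ψ.coeff i).natDegree ≤ n) →
  Irreducible (Ψ.map (mapRingHom (algebraMap κ (AlgebraicClosure κ)))) →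
  ∃ a b : κ, a ≠ 0 ∧ Ψ.evalEval a b = 0 ∧ (derivative Ψ).evalEval a b ≠ 0

-- deps:
def S_BN : Prop := ∀ (K k : Type) [Field K] [NumberField K] [Field k] [IsAlgClosed k] [Algebra K k]
  (Φ : (𝓞 K)[X][Y]), Φ.Monic →
  Irreducible (Φ.map (mapRingHom ((algebraMap K k).comp (algebraMap (𝓞 K) K)))) →
  ∃ M : ℕ, M ≠ 0 ∧ ∀ (κ : Type) [Field κ] (l : 𝓞 K →+* κ), (M : κ) ≠ 0 →
    Irreducible (Φ.map (mapRingHom l))

-- deps: CEDEG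
def S_MODEL : Prop := ∀ (K F k Fb : Type) [Field K] [NumberField K] [Field F] [Algebra K F]
  [Field k] [IsAlgClosed k] [Algebra K k] [Field Fb] [Algebra k Fb]
  (j : F →+* Fb) (act : (k ≃ₐ[K] k) →* RingAut Fb), CE j act → FF K F → ∀ f : F,
  Transcendental K f → ¬ IsSquare (j f) → ∃ Φ : (𝓞 K)[X][Y], Φ.Monic ∧
    Irreducible ((Φ.map (expand (𝓞 K) 2).toRingHom).map
      (mapRingHom ((algebraMap K k).comp (algebraMap (𝓞 K) K)))) ∧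
    ∀ (L : Type) [Field L] (ρ : K →+* L) (t z : L), (∀ p : K[X], p.eval₂ ρ t = 0 → p = 0) →
      Φ.eval₂ (eval₂RingHom (ρ.comp (algebraMap (𝓞 K) K)) t) z = 0 →
        ∃ φ : F →+* L, φ.comp (algebraMap K F) = ρ ∧ φ f = t

-- deps: BN LW TAME
def S_GOOD : Prop := ∀ (K F k : Type) [Field K] [NumberField K] [Field F] [Field k]
  [IsAlgClosed k] [Algebra K k] (ι : K →+* F) (f : F) (Φ : (𝓞 K)[X][Y]), Φ.Monic →
  Irreducible ((Φ.map (expand (𝓞 K) 2).toRingHom).map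
    (mapRingHom ((algebraMap K k).comp (algebraMap (𝓞 K) K)))) →
  (∀ (L : Type) [Field L] (ρ : K →+* L) (t z : L), (∀ p : K[X], p.eval₂ ρ t = 0 → p = 0) →
    Φ.eval₂ (eval₂RingHom (ρ.comp (algebraMap (𝓞 K) K)) t) z = 0 →
      ∃ φ : F →+* L, φ.comp ι = ρ ∧ φ f = t) → ∃ M : ℕ, M ≠ 0 ∧ GoodM ι f M

end Pool.Agent.P.MP_ab3ecb_nt.Inv
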